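import Pool.Agent.Helper95K9.HO.Rel

/-!
# Evaluations of the main relation against suitable multipliers
-/

set_option autoImplicit false

namespace Pool.Agent.Helper95K9.HO

open Finset

variable {S : Type*} [CommRing S]

/-- Linear forms in the outer variables. -/
def LF (n : ℕ) (s u : S) (y : ℕ → S) (α β : S) (c : ℕ → S) : S :=
  α * s + β * u + ∑ l ∈ Ico 1 (n + 1), c l * y l

variable {n : ℕ} {ξ s u : S} {y e g : ℕ → S}

theorem LF_eval {α β : S} {c : ℕ → S} (z O Ω zs zu : S) (zy : ℕ → S)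
    (h1 : z * s * O = zs * Ω) (h2 : z * u * O = zu * Ω)
    (h3 : ∀ l ∈ Ico 1 (n + 1), z * y l * O = zy l * Ω) :
    z * (LF n s u y α β c * O) =
      (α * zs + β * zu + ∑ l ∈ Ico 1 (n + 1), c l * zy l) * Ω := by
  have h4 : z * ((∑ l ∈ Ico 1 (n + 1), c l * y l) * O) =
      (∑ l ∈ Ico 1 (n + 1), c l * zy l) * Ω := by
    rw [sum_mul, mul_sum, sum_mul]
    apply sum_congr rfl
    intro l hl
    linear_combination c l * h3 l hl
  rw [LF]
  linear_combination α * h1 + β * h2 + h4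

theorem LF_comb (f : ℕ → S) (k α β : S) (c αj βj : ℕ → S) (J : Finset ℕ) :
    k * LF n s u y α β c + ∑ j ∈ J, f j * LF n s u y (αj j) (βj j) (fun _ => 0) =
      LF n s u y (k * α + ∑ j ∈ J, f j * αj j) (k * β + ∑ j ∈ J, f j * βj j)
        (fun l => k * c l) := by
  have h1 : ∀ j ∈ J, f j * LF n s u y (αj j) (βj j) (fun _ => 0) =
      f j * αj j * s + f j * βj j * u := by
    intro j _
    simp only [LF, zero_mul, sum_const_zero, add_zero]
    ring
  rw [sum_congr rfl h1, sum_add_distrib, ← sum_mul, ← sum_mul, LF, LF, mul_add, mul_sum]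
  have h2 : ∑ l ∈ Ico 1 (n + 1), k * (c l * y l) = ∑ l ∈ Ico 1 (n + 1), k * c l * y l :=
    sum_congr rfl (fun l _ => by ring)
  rw [h2]
  ring

section ev

variable (F : Fam n s u y e g) {α β : S} {c : ℕ → S}

include F

theorem ev_T : LF n s u y α β c * OU g s u y 0 (n + 1) =
    (∑ l ∈ Ico 1 (n + 1), c l * (-2 * (g (l + 1) * g (l + 2)))) * Om s u y (n + 1) := by
  have hn := F.hn
  have := LF_eval (n := n) (s := s) (u := u) (y := y) (α := α) (β := β) (c := c) 1
    (OU g s u y 0 (n + 1)) (Om s u y (n + 1)) 0 0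
    (fun l => -2 * (g (l + 1) * g (l + 2)))
    (by
      rw [one_mul, zero_mul]
      exact E1 F.hs F.hu F.hy F.hy0 F.hym (F.hg _ (by omega)) (F.hg _ (by omega))
        (F.hg _ (by omega)) (F.hg _ (by omega)) (by omega))
    (by
      rw [one_mul, zero_mul]
      exact E2 F.hs F.hu F.hy F.hy0 F.hym (F.hg _ (by omega)) (F.hg _ (by omega))
        (F.hg _ (by omega)) (F.hg _ (by omega)) (by omega))
    (fun l hl => by
      rw [mem_Ico] at hl
      rw [one_mul]
      exact E3 F.hs F.hu F.hy F.hy0 F.hym (F.hg _ (by omega)) (F.hg _ (by omega))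
        (F.hg _ (by omega)) (F.hg _ (by omega)) hl.1 hl.2)
  linear_combination this

theorem ev_z2 : (y n + g (n + 1) * s) * (LF n s u y α β c * OU g s u y 0 n) =
    (2 * g (n + 1) * β + ∑ l ∈ Ico 1 (n + 1), c l *
      (2 * (g (n + 1) * g (l + 2)) - 2 * (g (l + 1) * g (l + 2)))) * Om s u y (n + 1) := by
  have hn := F.hn
  have := LF_eval (n := n) (s := s) (u := u) (y := y) (α := α) (β := β) (c := c)
    (y n + g (n + 1) * s) (OU g s u y 0 n) (Om s u y (n + 1)) 0 (2 * g (n + 1))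
    (fun l => 2 * (g (n + 1) * g (l + 2)) - 2 * (g (l + 1) * g (l + 2)))
    (by
      rw [zero_mul]
      exact E4s (m := n + 1) F.hs F.hu F.hy F.hy0 (F.hg _ (by omega)) (F.hg _ (by omega))
        (F.hg _ (by omega)) (by omega))
    (E4u (m := n + 1) F.hs F.hu F.hy F.hy0 (F.hg _ (by omega)) (F.hg _ (by omega)) (by omega))
    (fun l hl => by
      rw [mem_Ico] at hl
      exact E4y (m := n + 1) F.hs F.hu F.hy F.hy0 (F.hg _ (by omega)) (F.hg _ (by omega))
        (F.hg _ (by omega)) hl.1 hl.2)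
  linear_combination this

theorem ev_z1 : (y 1 - g 3 * u) * (LF n s u y α β c * OU g s u y 1 (n + 1)) =
    (-2 * g 3 * α + ∑ l ∈ Ico 1 (n + 1), c l *
      (2 * (g 3 * g (l + 1)) - 2 * (g (l + 1) * g (l + 2)))) * Om s u y (n + 1) := by
  have hn := F.hn
  have := LF_eval (n := n) (s := s) (u := u) (y := y) (α := α) (β := β) (c := c)
    (y 1 - g 3 * u) (OU g s u y 1 (n + 1)) (Om s u y (n + 1)) (-2 * g 3) 0
    (fun l => 2 * (g 3 * g (l + 1)) - 2 * (g (l + 1) * g (l + 2)))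
    (E5s F.hs F.hu F.hy F.hym (F.hg _ (by omega)) (F.hg _ (by omega)) (by omega))
    (by
      rw [zero_mul]
      exact E5u F.hs F.hu F.hy F.hym (F.hg _ (by omega)) (F.hg _ (by omega))
        (F.hg _ (by omega)) (by omega))
    (fun l hl => by
      rw [mem_Ico] at hl
      exact E5y F.hs F.hu F.hy F.hym (F.hg _ (by omega)) (F.hg _ (by omega))
        (F.hg _ (by omega)) hl.1 hl.2)
  linear_combination this

theorem ev_s : s * (LF n s u y α β c * OU g s u y 0 n) =
    (β + ∑ l ∈ Ico 1 (n + 1), c l * g (l + 2)) * Om s u y (n + 1) := by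
  have hn := F.hn
  have := LF_eval (n := n) (s := s) (u := u) (y := y) (α := α) (β := β) (c := c)
    s (OU g s u y 0 n) (Om s u y (n + 1)) 0 1 (fun l => g (l + 2))
    (by linear_combination OU g s u y 0 n * F.hs)
    (by
      rw [one_mul]
      exact E6a (m := n + 1) F.hs F.hu F.hy F.hy0 (by omega))
    (fun l hl => by
      rw [mem_Ico] at hl
      exact E6 (m := n + 1) F.hs F.hu F.hy F.hy0 (F.hg _ (by omega)) (F.hg _ (by omega))
        hl.1 hl.2)
  linear_combination this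

theorem ev_u : u * (LF n s u y α β c * OU g s u y 0 n) =
    (α + ∑ l ∈ Ico 1 (n + 1), c l * g (l + 1)) * Om s u y (n + 1) := by
  have hn := F.hn
  have := LF_eval (n := n) (s := s) (u := u) (y := y) (α := α) (β := β) (c := c)
    u (OU g s u y 0 n) (Om s u y (n + 1)) 1 0 (fun l => g (l + 1))
    (by
      have := E6a (g := g) (m := n + 1) F.hs F.hu F.hy F.hy0 (by omega)
      simp only [Nat.add_sub_cancel] at this
      linear_combination this)
    (by linear_combination OU g s u y 0 n * F.hu)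
    (fun l hl => by
      rw [mem_Ico] at hl
      exact E7 (m := n + 1) F.hs F.hu F.hy F.hy0 (F.hg _ (by omega)) (F.hg _ (by omega))
        hl.1 hl.2)
  linear_combination this

/-- The pairing of two outer variables. -/
def gam (g : ℕ → S) (k l : ℕ) : S :=
  if l = k then 0 else if l < k then
    g (l + 1) * g (k + 2) + g (l + 2) * g (k + 1) - 2 * (g (l + 1) * g (l + 2)) else
    g (k + 1) * g (l + 2) + g (k + 2) * g (l + 1) - 2 * (g (k + 1) * g (k + 2))

theorem ev_y {k : ℕ} (hk : k ∈ Ico 1 (n + 1)) : y k * (LF n s u y α β c * OU g s u y 0 n) =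
    (α * g (k + 2) + β * g (k + 1) + ∑ l ∈ Ico 1 (n + 1), c l * gam g k l) *
      Om s u y (n + 1) := by
  have hn := F.hn
  rw [mem_Ico] at hk
  exact LF_eval (n := n) (s := s) (u := u) (y := y) (α := α) (β := β) (c := c)
    (y k) (OU g s u y 0 n) (Om s u y (n + 1)) (g (k + 2)) (g (k + 1)) (fun l => gam g k l)
    (by
      have := E6 (g := g) (m := n + 1) F.hs F.hu F.hy F.hy0 (F.hg _ (by omega))
        (F.hg _ (by omega)) hk.1 hk.2
      simp only [Nat.add_sub_cancel] at this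
      linear_combination this)
    (by
      have := E7 (g := g) (m := n + 1) F.hs F.hu F.hy F.hy0 (F.hg _ (by omega))
        (F.hg _ (by omega)) hk.1 hk.2
      simp only [Nat.add_sub_cancel] at this
      linear_combination this)
    (fun l hl => by
      rw [mem_Ico] at hl
      simp only [gam]
      rcases lt_trichotomy l k with h | h | h
      · rw [if_neg (by omega), if_pos h]
        have := E8 (g := g) (m := n + 1) F.hs F.hu F.hy F.hy0 (F.hg _ (by omega))
          (F.hg _ (by omega)) hl.1 h hk.2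
        simp only [Nat.add_sub_cancel] at this
        linear_combination this
      · subst h
        rw [if_pos rfl]
        linear_combination OU g s u y 0 n * F.hy l
      · rw [if_neg (by omega), if_neg (by omega)]
        have := E8 (g := g) (m := n + 1) F.hs F.hu F.hy F.hy0 (F.hg _ (by omega))
          (F.hg _ (by omega)) hk.1 h hl.2
        simp only [Nat.add_sub_cancel] at this
        linear_combination this)

theorem ev_si {i : ℕ} (hi : i < n + 1) :
    s * (LF n s u y α β c * (OU g s u y 0 i * OU g s u y (i + 1) (n + 1))) =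
    (β + ∑ l ∈ Ico 1 (n + 1), c l * ((if l ≤ i then 1 else -1) * g (l + 2))) *
      Om s u y (n + 1) := by
  have hn := F.hn
  have := LF_eval (n := n) (s := s) (u := u) (y := y) (α := α) (β := β) (c := c)
    s (OU g s u y 0 i * OU g s u y (i + 1) (n + 1)) (Om s u y (n + 1)) 0 1
    (fun l => (if l ≤ i then 1 else -1) * g (l + 2))
    (by linear_combination (OU g s u y 0 i * OU g s u y (i + 1) (n + 1)) * F.hs)
    (by
      rw [one_mul]
      exact E9a F.hs F.hu F.hy F.hy0 F.hym hi)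
    (fun l hl => by
      rw [mem_Ico] at hl
      by_cases h : l ≤ i
      · rw [if_pos h, one_mul]
        exact E9b F.hs F.hu F.hy F.hy0 F.hym (F.hg _ (by omega)) (F.hg _ (by omega)) hi
          hl.1 hl.2 h
      · rw [if_neg h]
        have := E9c F.hs F.hu F.hy F.hy0 F.hym (F.hg _ (by omega)) (F.hg _ (by omega))
          hl.2 (by omega : i < l)
        linear_combination this)
  linear_combination this

end ev

/-- The relation, with the coefficients. -/
def RR (n : ℕ) (ξ s u : S) (y e g : ℕ → S) (π v1 v2 : S) (D : ℕ → S) : Prop :=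
  Yin n e * (π * OU g s u y 0 (n + 1) +
      LF n s u y (v1 + ∑ j ∈ Ico 1 n, g (j + 2) * D (j + 1))
        (v2 + ∑ j ∈ Ico 1 n, g (j + 2) * D j) D * OU g s u y 0 n +
      ξ * ∑ i ∈ Ico 0 n, LF n s u y
        (-g (i + 3) * v1 + ∑ j ∈ Ico 1 n, g (j + 2) * (g (i + 3) - 2 * g (i + 3 + j)) * D (j + 1))
        (-g (i + 3) * v2 + ∑ j ∈ Ico 1 n, g (j + 2) * (g (i + 3) - 2 * g (i + 3 + j)) * D j)
        (fun l => -g (i + 3) * D l) *
          (OU g s u y 0 i * OU g s u y (i + 1) (n + 1))) = 0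

section out

variable (F : Fam n s u y e g) {π v1 v2 : S} {D : ℕ → S} (hR : RR n ξ s u y e g π v1 v2 D)

include F hR

theorem outN2 : (2 * g (n + 1) * (v2 + ∑ j ∈ Ico 1 n, g (j + 2) * D j) +
    ∑ l ∈ Ico 1 (n + 1), D l * (2 * (g (n + 1) * g (l + 2)) - 2 * (g (l + 1) * g (l + 2)))) *
      (Yin n e * Om s u y (n + 1)) = 0 := by
  have hn := F.hn
  have hk := z2_kill (g := g) (m := n + 1) (u := u) F.hs F.hy F.hym (F.hg _ (by omega))
    (F.hg _ (by omega)) (by omega)
  simp only [Nat.add_sub_cancel] at hk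
  have h1 : (y n + g (n + 1) * s) * OU g s u y 0 (n + 1) = 0 := by
    rw [OU_split (c := n) (Nat.zero_le _) (by omega)]
    linear_combination OU g s u y 0 n * hk
  have h2 : ∀ f : ℕ → S, (y n + g (n + 1) * s) *
      (∑ i ∈ Ico 0 n, f i * (OU g s u y 0 i * OU g s u y (i + 1) (n + 1))) = 0 := by
    intro f
    rw [mul_sum]
    apply sum_eq_zero
    intro i hi
    rw [mem_Ico] at hi
    rw [OU_split (a := i + 1) (c := n) (b := n + 1) (by omega) (by omega)]
    linear_combination f i * OU g s u y 0 i * OU g s u y (i + 1) n * hk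
  have h3 := ev_z2 F (α := v1 + ∑ j ∈ Ico 1 n, g (j + 2) * D (j + 1))
    (β := v2 + ∑ j ∈ Ico 1 n, g (j + 2) * D j) (c := D)
  rw [RR] at hR
  linear_combination (y n + g (n + 1) * s) * hR - Yin n e * h3 - Yin n e * π * h1 -
    Yin n e * ξ * h2 (fun i => LF n s u y
        (-g (i + 3) * v1 + ∑ j ∈ Ico 1 n, g (j + 2) * (g (i + 3) - 2 * g (i + 3 + j)) * D (j + 1))
        (-g (i + 3) * v2 + ∑ j ∈ Ico 1 n, g (j + 2) * (g (i + 3) - 2 * g (i + 3 + j)) * D j)
        (fun l => -g (i + 3) * D l))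

theorem outN1 : ξ * (-2 * g 3 * (-g 3 * v1 +
      ∑ j ∈ Ico 1 n, g (j + 2) * (g 3 - 2 * g (3 + j)) * D (j + 1)) +
    ∑ l ∈ Ico 1 (n + 1), -g 3 * D l *
      (2 * (g 3 * g (l + 1)) - 2 * (g (l + 1) * g (l + 2)))) *
      (Yin n e * Om s u y (n + 1)) = 0 := by
  have hn := F.hn
  have hk := z1_kill (g := g) (s := s) F.hu F.hy F.hy0 (F.hg 1 (by omega)) (F.hg 2 (by omega))
  have h1 : (y 1 - g 3 * u) * OU g s u y 0 (n + 1) = 0 := by
    rw [OU_split (c := 1) (Nat.zero_le _) (by omega)]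
    linear_combination OU g s u y 1 (n + 1) * hk
  have h1' : (y 1 - g 3 * u) * OU g s u y 0 n = 0 := by
    rw [OU_split (c := 1) (Nat.zero_le _) (by omega)]
    linear_combination OU g s u y 1 n * hk
  have h2 : ∀ f : ℕ → S, (y 1 - g 3 * u) *
      (∑ i ∈ Ico 0 n, f i * (OU g s u y 0 i * OU g s u y (i + 1) (n + 1))) =
      (y 1 - g 3 * u) * (f 0 * OU g s u y 1 (n + 1)) := by
    intro f
    rw [mul_sum, sum_eq_single_of_mem 0 (mem_Ico.2 ⟨le_rfl, by omega⟩)]
    · have : OU g s u y 0 0 = 1 := OO_self _ _ _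
      rw [this, one_mul]
    · intro i hi hi0
      rw [mem_Ico] at hi
      rw [OU_split (a := 0) (c := 1) (b := i) (by omega) (by omega)]
      linear_combination f i * OU g s u y 1 i * OU g s u y (i + 1) (n + 1) * hk
  have h3 := ev_z1 F (α := -g 3 * v1 +
      ∑ j ∈ Ico 1 n, g (j + 2) * (g 3 - 2 * g (3 + j)) * D (j + 1))
    (β := -g 3 * v2 + ∑ j ∈ Ico 1 n, g (j + 2) * (g 3 - 2 * g (3 + j)) * D j)
    (c := fun l => -g 3 * D l)
  have h4 := h2 (fun i => LF n s u y
        (-g (i + 3) * v1 + ∑ j ∈ Ico 1 n, g (j + 2) * (g (i + 3) - 2 * g (i + 3 + j)) * D (j + 1))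
        (-g (i + 3) * v2 + ∑ j ∈ Ico 1 n, g (j + 2) * (g (i + 3) - 2 * g (i + 3 + j)) * D j)
        (fun l => -g (i + 3) * D l))
  simp only [zero_add] at h4
  rw [RR] at hR
  linear_combination (y 1 - g 3 * u) * hR - Yin n e * ξ * h3 - Yin n e * π * h1 -
    Yin n e * ξ * h4 - Yin n e * LF n s u y (v1 + ∑ j ∈ Ico 1 n, g (j + 2) * D (j + 1))
        (v2 + ∑ j ∈ Ico 1 n, g (j + 2) * D j) D * h1'

theorem outX1 : ((v2 + ∑ j ∈ Ico 1 n, g (j + 2) * D j) +
      (∑ l ∈ Ico 1 (n + 1), D l * g (l + 2)) +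
      ξ * ∑ i ∈ Ico 0 n, ((-g (i + 3) * v2 +
        ∑ j ∈ Ico 1 n, g (j + 2) * (g (i + 3) - 2 * g (i + 3 + j)) * D j) +
        ∑ l ∈ Ico 1 (n + 1), -g (i + 3) * D l * ((if l ≤ i then 1 else -1) * g (l + 2)))) *
      (Yin n e * Om s u y (n + 1)) = 0 := by
  have hn := F.hn
  have h1 := E1 F.hs F.hu F.hy F.hy0 F.hym (F.hg 1 (by omega)) (F.hg 2 (by omega))
        (F.hg _ (by omega)) (F.hg _ (by omega)) (by omega)
  have h2 := ev_s F (α := v1 + ∑ j ∈ Ico 1 n, g (j + 2) * D (j + 1))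
    (β := v2 + ∑ j ∈ Ico 1 n, g (j + 2) * D j) (c := D)
  have h3 : s * (∑ i ∈ Ico 0 n, LF n s u y
        (-g (i + 3) * v1 + ∑ j ∈ Ico 1 n, g (j + 2) * (g (i + 3) - 2 * g (i + 3 + j)) * D (j + 1))
        (-g (i + 3) * v2 + ∑ j ∈ Ico 1 n, g (j + 2) * (g (i + 3) - 2 * g (i + 3 + j)) * D j)
        (fun l => -g (i + 3) * D l) *
          (OU g s u y 0 i * OU g s u y (i + 1) (n + 1))) =
      (∑ i ∈ Ico 0 n, ((-g (i + 3) * v2 +
        ∑ j ∈ Ico 1 n, g (j + 2) * (g (i + 3) - 2 * g (i + 3 + j)) * D j) +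
        ∑ l ∈ Ico 1 (n + 1), -g (i + 3) * D l * ((if l ≤ i then 1 else -1) * g (l + 2)))) *
        Om s u y (n + 1) := by
    rw [mul_sum, sum_mul]
    apply sum_congr rfl
    intro i hi
    rw [mem_Ico] at hi
    exact ev_si F (by omega)
  rw [RR] at hR
  linear_combination s * hR - Yin n e * h2 - Yin n e * π * h1 - Yin n e * ξ * h3

/-- The relation modulo `ξ`. -/
theorem RRmod : ∃ t : S, Yin n e * (LF n s u y
      (v1 + ∑ j ∈ Ico 1 n, g (j + 2) * D (j + 1) - π * g (n + 1))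
      (v2 + ∑ j ∈ Ico 1 n, g (j + 2) * D j) (fun l => D l + if l = n then π else 0) *
        OU g s u y 0 n) = ξ * t := by
  have hn := F.hn
  refine ⟨-(Yin n e * ∑ i ∈ Ico 0 n, LF n s u y
        (-g (i + 3) * v1 + ∑ j ∈ Ico 1 n, g (j + 2) * (g (i + 3) - 2 * g (i + 3 + j)) * D (j + 1))
        (-g (i + 3) * v2 + ∑ j ∈ Ico 1 n, g (j + 2) * (g (i + 3) - 2 * g (i + 3 + j)) * D j)
        (fun l => -g (i + 3) * D l) *
          (OU g s u y 0 i * OU g s u y (i + 1) (n + 1))), ?_⟩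
  have h1 : OU g s u y 0 (n + 1) = OU g s u y 0 n * (y n - g (n + 1) * s) := by
    rw [OU, OO_succ _ _ (Nat.zero_le _)]
    simp only [VV]
    rw [F.hym, F.hg (n + 1 + 1) (by omega), F.hg (n + 1 + 2) (by omega)]
    rw [OU]
    simp only [VV]
    ring
  have h2 : ∑ l ∈ Ico 1 (n + 1), (D l + if l = n then π else 0) * y l =
      ∑ l ∈ Ico 1 (n + 1), D l * y l + π * y n := by
    have : ∀ l ∈ Ico 1 (n + 1), (D l + if l = n then π else 0) * y l =
        D l * y l + (if l = n then π * y n else 0) := by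
      intro l _
      split_ifs with h
      · subst h
        ring
      · ring
    rw [sum_congr rfl this, sum_add_distrib]
    congr 1
    rw [sum_ite_eq' _ n]
    rw [if_pos (mem_Ico.2 ⟨by omega, by omega⟩)]
  rw [RR] at hR
  simp only [LF] at hR ⊢
  rw [h2]
  rw [h1] at hR
  linear_combination hR

theorem outLs : ∃ t : S, ((v2 + ∑ j ∈ Ico 1 n, g (j + 2) * D j) +
    ∑ l ∈ Ico 1 (n + 1), (D l + if l = n then π else 0) * g (l + 2)) *
      (Yin n e * Om s u y (n + 1)) = ξ * t := by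
  obtain ⟨t, ht⟩ := RRmod F hR
  refine ⟨s * t, ?_⟩
  have h2 := ev_s F (α := v1 + ∑ j ∈ Ico 1 n, g (j + 2) * D (j + 1) - π * g (n + 1))
    (β := v2 + ∑ j ∈ Ico 1 n, g (j + 2) * D j) (c := fun l => D l + if l = n then π else 0)
  linear_combination s * ht - Yin n e * h2

theorem outLu : ∃ t : S, ((v1 + ∑ j ∈ Ico 1 n, g (j + 2) * D (j + 1) - π * g (n + 1)) +
    ∑ l ∈ Ico 1 (n + 1), (D l + if l = n then π else 0) * g (l + 1)) *
      (Yin n e * Om s u y (n + 1)) = ξ * t := by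
  obtain ⟨t, ht⟩ := RRmod F hR
  refine ⟨u * t, ?_⟩
  have h2 := ev_u F (α := v1 + ∑ j ∈ Ico 1 n, g (j + 2) * D (j + 1) - π * g (n + 1))
    (β := v2 + ∑ j ∈ Ico 1 n, g (j + 2) * D j) (c := fun l => D l + if l = n then π else 0)
  linear_combination u * ht - Yin n e * h2

theorem outLy {k : ℕ} (hk : k ∈ Ico 1 (n + 1)) :
    ∃ t : S, ((v1 + ∑ j ∈ Ico 1 n, g (j + 2) * D (j + 1) - π * g (n + 1)) * g (k + 2) +
      (v2 + ∑ j ∈ Ico 1 n, g (j + 2) * D j) * g (k + 1) +
    ∑ l ∈ Ico 1 (n + 1), (D l + if l = n then π else 0) * gam g k l) *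
      (Yin n e * Om s u y (n + 1)) = ξ * t := by
  obtain ⟨t, ht⟩ := RRmod F hR
  refine ⟨y k * t, ?_⟩
  have h2 := ev_y F (α := v1 + ∑ j ∈ Ico 1 n, g (j + 2) * D (j + 1) - π * g (n + 1))
    (β := v2 + ∑ j ∈ Ico 1 n, g (j + 2) * D j) (c := fun l => D l + if l = n then π else 0) hk
  linear_combination y k * ht - Yin n e * h2

end out

end Pool.Agent.Helper95K9.HO
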