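import Pool.Agent.Helper95K9.HO.Ring

/-!
# The inner part and the main relation in an abstract ring
-/

set_option autoImplicit false

namespace Pool.Agent.Helper95K9.HO

open Finset

variable {S : Type*} [CommRing S]

/-- The product of neighbouring sums. -/
def PP (e : ℕ → S) (a b : ℕ) : S := ∏ i ∈ Ico a b, (e i + e (i + 1))

theorem PP_eq (e : ℕ → S) (a b : ℕ) : PP e a b = OO (fun _ => 0) e a b := by
  simp [PP, OO]

theorem PP_split (e : ℕ → S) {a c b : ℕ} (h : a ≤ c) (h' : c ≤ b) :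
    PP e a b = PP e a c * PP e c b := by
  rw [PP, PP, PP, prod_Ico_consecutive _ h h']

section inner

variable {e : ℕ → S} (he : ∀ i, e i * e i = 0)

include he in
theorem pR {z : S} {a b : ℕ} (hab : a ≤ b) (ha : z * e a = 0) :
    z * PP e a b = z * ∏ i ∈ Ico (a + 1) (b + 1), e i := by
  rw [PP_eq]
  exact openR he hab ha (fun _ => mul_zero _)

include he in
theorem pL {z : S} {a b : ℕ} (hab : a ≤ b) (hb : z * e b = 0) :
    z * PP e a b = z * ∏ i ∈ Ico a b, e i := by
  rw [PP_eq]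
  exact openL he hab hb (fun _ => mul_zero _)

include he in
theorem eP {a l b : ℕ} (h1 : a ≤ l) (h2 : l ≤ b) :
    e l * PP e a b = ∏ i ∈ Ico a (b + 1), e i := by
  rw [PP_split e h1 h2, prod_split e h1 (by omega : l < b + 1)]
  have h3 := pL he h1 (he l)
  have h4 := pR he h2 (z := e l * ∏ i ∈ Ico a l, e i)
    (by linear_combination (∏ i ∈ Ico a l, e i) * he l)
  linear_combination PP e l b * h3 + h4

theorem mem_kill {a b l : ℕ} (he : ∀ i, e i * e i = 0) (h1 : a ≤ l) (h2 : l < b) :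
    e l * ∏ i ∈ Ico a b, e i = 0 := by
  rw [prod_split e h1 h2]
  linear_combination (∏ i ∈ Ico a l, e i) * (∏ i ∈ Ico (l + 1) b, e i) * he l

/-- The product `Q j`. -/
def QQ (e : ℕ → S) (n j : ℕ) : S := (e j - e (j + 1)) * (PP e 1 j * PP e (j + 1) n)

include he in
theorem eQ_le {n l j : ℕ} (h1 : 1 ≤ l) (h2 : l ≤ j) (h3 : j < n) :
    e l * QQ e n j = -∏ i ∈ Ico 1 (n + 1), e i := by
  have h4 := eP he h1 h2
  have h5 := mem_kill he (a := 1) (b := j + 1) (l := j) (by omega) (by omega)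
  have h6 := pR he (a := j + 1) (b := n) h3 (z := e (j + 1) * ∏ i ∈ Ico 1 (j + 1), e i)
    (by linear_combination (∏ i ∈ Ico 1 (j + 1), e i) * he (j + 1))
  have h7 := prod_split e (a := 1) (j := j + 1) (b := n + 1) (by omega) (by omega)
  rw [QQ, h7]
  linear_combination (e j - e (j + 1)) * PP e (j + 1) n * h4 + PP e (j + 1) n * h5 - h6

include he in
theorem eQ_gt {n l j : ℕ} (h1 : 1 ≤ j) (h2 : j < l) (h3 : l ≤ n) :
    e l * QQ e n j = ∏ i ∈ Ico 1 (n + 1), e i := by
  have h4 := eP he (a := j + 1) h2 h3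
  have h5 := mem_kill he (a := j + 1) (b := n + 1) (l := j + 1) (by omega) (by omega)
  have h6 := pL he (a := 1) (b := j) h1 (z := e j * ∏ i ∈ Ico (j + 1) (n + 1), e i)
    (by linear_combination (∏ i ∈ Ico (j + 1) (n + 1), e i) * he j)
  have h7 := prod_split e (a := 1) (j := j) (b := n + 1) (by omega) (by omega)
  rw [QQ, h7]
  linear_combination (e j - e (j + 1)) * PP e 1 j * h4 - PP e 1 j * h5 + h6

/-- The signed sum of coefficients. -/
def sg (f : ℕ → S) (n j : ℕ) : S := ∑ l ∈ Ico (j + 1) (n + 1), f l - ∑ l ∈ Ico 1 (j + 1), f l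

include he in
theorem linP {n : ℕ} (f : ℕ → S) :
    (∑ l ∈ Ico 1 (n + 1), f l * e l) * PP e 1 n =
      (∑ l ∈ Ico 1 (n + 1), f l) * ∏ i ∈ Ico 1 (n + 1), e i := by
  rw [sum_mul, sum_mul]
  apply sum_congr rfl
  intro l hl
  rw [mem_Ico] at hl
  rw [mul_assoc, eP he hl.1 (by omega)]

include he in
theorem linQ {n j : ℕ} (h1 : 1 ≤ j) (h2 : j < n) (f : ℕ → S) :
    (∑ l ∈ Ico 1 (n + 1), f l * e l) * QQ e n j = sg f n j * ∏ i ∈ Ico 1 (n + 1), e i := by
  rw [sg, ← sum_Ico_consecutive _ (by omega : 1 ≤ j + 1) (by omega : j + 1 ≤ n + 1), add_mul,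
    sub_mul, sum_mul, sum_mul, sum_mul, sum_mul]
  have h3 : ∑ l ∈ Ico 1 (j + 1), f l * e l * QQ e n j =
      -∑ l ∈ Ico 1 (j + 1), f l * ∏ i ∈ Ico 1 (n + 1), e i := by
    rw [← sum_neg_distrib]
    apply sum_congr rfl
    intro l hl
    rw [mem_Ico] at hl
    rw [mul_assoc, eQ_le he hl.1 (by omega) h2]
    ring
  have h4 : ∑ l ∈ Ico (j + 1) (n + 1), f l * e l * QQ e n j =
      ∑ l ∈ Ico (j + 1) (n + 1), f l * ∏ i ∈ Ico 1 (n + 1), e i := by
    apply sum_congr rfl
    intro l hl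
    rw [mem_Ico] at hl
    rw [mul_assoc, eQ_gt he h1 (by omega) (by omega)]
  rw [h3, h4]
  ring

include he in
theorem linY {n : ℕ} (f : ℕ → S) :
    (∏ i ∈ Ico 1 (n + 1), e i) * (∑ l ∈ Ico 1 (n + 1), f l * e l) = 0 := by
  rw [mul_sum]
  apply sum_eq_zero
  intro l hl
  rw [mem_Ico] at hl
  linear_combination f l * mem_kill he hl.1 hl.2

theorem tele (G : ℕ → S) (c : ℕ) {a b : ℕ} (h : a ≤ b) :
    ∑ l ∈ Ico a b, (G (c + 1 + l) - G (c + l)) = G (c + b) - G (c + a) := by
  induction b, h using Nat.le_induction with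
  | base => simp
  | succ b hb ih =>
    rw [sum_Ico_succ_top hb, ih]
    have : c + 1 + b = c + (b + 1) := by ring
    rw [this]
    ring

theorem sg_tele (G : ℕ → S) (c n j : ℕ) (h : j ≤ n) :
    sg (fun l => G (c + 1 + l) - G (c + l)) n j =
      G (c + (n + 1)) - 2 * G (c + (j + 1)) + G (c + 1) := by
  rw [sg, tele G c (by omega : j + 1 ≤ n + 1), tele G c (by omega : 1 ≤ j + 1)]
  ring

/-- Abel summation. -/
theorem abel (G : ℕ → S) {n : ℕ} (hn : 1 ≤ n) :
    ∑ i ∈ Ico 1 (n + 1), (G (i + 1) - G i) * e i =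
      ∑ i ∈ Ico 1 n, G (i + 1) * (e i - e (i + 1)) + G (n + 1) * e n - G 1 * e 1 := by
  induction n, hn using Nat.le_induction with
  | base =>
    rw [sum_Ico_succ_top le_rfl]
    simp
    ring
  | succ n hn ih =>
    rw [sum_Ico_succ_top (by omega), ih, sum_Ico_succ_top hn]
    ring

theorem PP_erase (e : ℕ → S) {n j : ℕ} (h1 : 1 ≤ j) (h2 : j < n) :
    ∏ i ∈ (Ico 1 n).erase j, (e i + e (i + 1)) = PP e 1 j * PP e (j + 1) n := by
  have h3 : (Ico 1 n).erase j = Ico 1 j ∪ Ico (j + 1) n := by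
    ext i
    simp only [mem_erase, mem_Ico, mem_union]
    omega
  rw [h3, prod_union]
  · rfl
  · rw [disjoint_left]
    intro i hi hi'
    rw [mem_Ico] at hi hi'
    omega

theorem OU_erase (g : ℕ → S) (s u : S) (y : ℕ → S) {m j : ℕ} (h2 : j < m) :
    ∏ i ∈ (Ico 0 m).erase j, (VV g s u (i + 1) - VV g s u i + (y i + y (i + 1))) =
      OU g s u y 0 j * OU g s u y (j + 1) m := by
  have h3 : (Ico 0 m).erase j = Ico 0 j ∪ Ico (j + 1) m := by
    ext i
    simp only [mem_erase, mem_Ico, mem_union]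
    omega
  rw [h3, prod_union]
  · rfl
  · rw [disjoint_left]
    intro i hi hi'
    rw [mem_Ico] at hi hi'
    omega

include he in
/-- The form of row `0` against the path product. -/
theorem E0P (G : ℕ → S) (n : ℕ) :
    (∑ i ∈ Ico 1 n, G (i + 1) * (e i - e (i + 1))) * PP e 1 n = 0 := by
  rw [sum_mul]
  apply sum_eq_zero
  intro i hi
  rw [PP, ← mul_prod_erase _ _ hi]
  linear_combination G (i + 1) * (∏ x ∈ (Ico 1 n).erase i, (e x + e (x + 1))) *
    (he i - he (i + 1))

include he in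
theorem E0Q (G : ℕ → S) {n j : ℕ} (h1 : 1 ≤ j) (h2 : j < n) :
    (∑ i ∈ Ico 1 n, G (i + 1) * (e i - e (i + 1))) *
      (∏ i ∈ (Ico 1 n).erase j, (e i + e (i + 1))) = G (j + 1) * QQ e n j := by
  have hj : j ∈ Ico 1 n := mem_Ico.2 ⟨h1, h2⟩
  rw [sum_mul, sum_eq_single_of_mem j hj]
  · rw [PP_erase e h1 h2, QQ]
    ring
  · intro i hi hij
    rw [← mul_prod_erase _ _ (mem_erase.2 ⟨hij, hi⟩)]
    linear_combination G (i + 1) *
      (∏ x ∈ ((Ico 1 n).erase j).erase i, (e x + e (x + 1))) * (he i - he (i + 1))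

end inner

/-- First order expansion of a product. -/
theorem lemE (I : Finset ℕ) (o n α : ℕ → S) (A Y : S) (h1 : ∀ i ∈ I, A * n i = α i * Y)
    (h2 : ∀ i ∈ I, Y * n i = 0) :
    A * ∏ i ∈ I, (o i + n i) = A * ∏ i ∈ I, o i + Y * ∑ i ∈ I, α i * ∏ j ∈ I.erase i, o j := by
  induction I using Finset.induction_on with
  | empty => simp
  | insert r I hr ih =>
    have ih' := ih (fun i hi => h1 i (mem_insert_of_mem hi)) (fun i hi => h2 i (mem_insert_of_mem hi))
    have hY : Y * ∏ i ∈ I, (o i + n i) = Y * ∏ i ∈ I, o i := by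
      have : ∀ J ⊆ I, Y * ∏ i ∈ J, (o i + n i) = Y * ∏ i ∈ J, o i := by
        intro J
        induction J using Finset.induction_on with
        | empty => simp
        | insert c J hc ihJ =>
          intro hJ
          rw [prod_insert hc, prod_insert hc]
          have h3 := h2 c (mem_insert_of_mem (hJ (mem_insert_self _ _)))
          have h4 := ihJ (fun i hi => hJ (mem_insert_of_mem hi))
          linear_combination (∏ i ∈ J, (o i + n i)) * h3 + o c * h4
      exact this I (Subset.refl _)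
    rw [prod_insert hr, prod_insert hr, sum_insert hr, erase_insert hr]
    have h5 : ∑ x ∈ I, α x * ∏ j ∈ (insert r I).erase x, o j =
        o r * ∑ x ∈ I, α x * ∏ j ∈ I.erase x, o j := by
      rw [mul_sum]
      apply sum_congr rfl
      intro x hx
      have hxr : x ≠ r := by
        rintro rfl
        exact hr hx
      rw [erase_insert_of_ne hxr.symm, prod_insert (by
        intro h
        exact hr (mem_of_mem_erase h))]
      ring
    rw [h5]
    linear_combination (o r) * ih' + (∏ i ∈ I, (o i + n i)) * h1 r (mem_insert_self _ _) +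
      α r * hY

theorem lemY (I : Finset ℕ) (o n : ℕ → S) (Y : S) (h2 : ∀ i ∈ I, Y * n i = 0) :
    Y * ∏ i ∈ I, (o i + n i) = Y * ∏ i ∈ I, o i := by
  have := lemE I o n (fun _ => 0) Y 0 (fun i hi => by rw [h2 i hi]; ring) (fun i _ => zero_mul _)
  rw [this]
  ring

end Pool.Agent.Helper95K9.HO
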