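import Mathlib

/-!
# The linear algebra over the residue field
-/

set_option autoImplicit false

namespace Pool.Agent.Helper95K9.HO

open Finset

theorem shiftD {k : Type*} [CommRing k] (n : ℕ) (hn : 1 ≤ n) (f : ℕ → k) (h1 : f 1 = 0) :
    ∑ j ∈ Ico 1 n, f (j + 1) = ∑ l ∈ Ico 1 (n + 1), f l := by
  rw [sum_Ico_add' f 1 n 1, ← sum_Ico_consecutive f (by omega : 1 ≤ 1 + 1)
    (by omega : 1 + 1 ≤ n + 1), sum_Ico_succ_top le_rfl]
  simp [h1]

theorem topD {k : Type*} [CommRing k] (n : ℕ) (hn : 1 ≤ n) (f : ℕ → k) (h1 : f n = 0) :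
    ∑ j ∈ Ico 1 n, f j = ∑ l ∈ Ico 1 (n + 1), f l := by
  rw [sum_Ico_succ_top hn, h1, add_zero]

section

variable {k : Type*} [CommRing k] {n : ℕ} (hn : 3 ≤ n) {g : ℕ → k}
  (hg : ∀ p, p ≤ 2 ∨ n + 1 < p → g p = 0) (hgs : ∀ p, 3 ≤ p → p ≤ n + 1 → g p * g p = 1)
  {D : ℕ → k} {v1 v2 : k}
  (A0 : ∑ l ∈ Ico 1 (n + 1), D l * (g (l + 1) * g (l + 2)) = 0)

include hn hg hgs A0 in
/-- The value of `v2`, doubled. -/
theorem valv2 (A1 : 2 * g (n + 1) * (v2 + ∑ j ∈ Ico 1 n, g (j + 2) * D j) +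
    ∑ l ∈ Ico 1 (n + 1), D l * (2 * (g (n + 1) * g (l + 2)) - 2 * (g (l + 1) * g (l + 2))) = 0) :
    2 * (v2 + 2 * ∑ l ∈ Ico 1 (n + 1), D l * g (l + 2)) = 0 := by
  have h1 : ∑ j ∈ Ico 1 n, g (j + 2) * D j = ∑ l ∈ Ico 1 (n + 1), D l * g (l + 2) := by
    rw [topD n (by omega) (fun j => g (j + 2) * D j) (by rw [hg (n + 2) (by omega), zero_mul])]
    exact sum_congr rfl (fun l _ => mul_comm _ _)
  have h2 : ∑ l ∈ Ico 1 (n + 1), D l *
      (2 * (g (n + 1) * g (l + 2)) - 2 * (g (l + 1) * g (l + 2))) =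
      2 * g (n + 1) * (∑ l ∈ Ico 1 (n + 1), D l * g (l + 2)) -
        2 * ∑ l ∈ Ico 1 (n + 1), D l * (g (l + 1) * g (l + 2)) := by
    rw [mul_sum, mul_sum, ← sum_sub_distrib]
    exact sum_congr rfl (fun l _ => by ring)
  rw [h2, h1, A0] at A1
  have h3 := hgs (n + 1) (by omega) le_rfl
  linear_combination g (n + 1) * A1 -
    (2 * (v2 + 2 * ∑ l ∈ Ico 1 (n + 1), D l * g (l + 2))) * h3

include hn hg hgs A0 in
/-- The value of `v1`, doubled. -/
theorem valv1 (A2 : -2 * g 3 * (-g 3 * v1 +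
      ∑ j ∈ Ico 1 n, g (j + 2) * (g 3 - 2 * g (3 + j)) * D (j + 1)) +
    ∑ l ∈ Ico 1 (n + 1), -g 3 * D l *
      (2 * (g 3 * g (l + 1)) - 2 * (g (l + 1) * g (l + 2))) = 0) :
    2 * (v1 - 2 * ∑ l ∈ Ico 1 (n + 1), D l * g (l + 1)) = 0 := by
  have h1 : ∑ j ∈ Ico 1 n, g (j + 2) * (g 3 - 2 * g (3 + j)) * D (j + 1) =
      g 3 * ∑ l ∈ Ico 1 (n + 1), D l * g (l + 1) -
        2 * ∑ l ∈ Ico 1 (n + 1), D l * (g (l + 1) * g (l + 2)) := by
    rw [mul_sum, mul_sum, ← sum_sub_distrib, ← shiftD n (by omega)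
      (fun l => g 3 * (D l * g (l + 1)) - 2 * (D l * (g (l + 1) * g (l + 2))))
      (by rw [hg (1 + 1) (by omega)]; ring)]
    apply sum_congr rfl
    intro j _
    have e1 : 3 + j = j + 1 + 2 := by ring
    rw [e1]
    ring
  have h2 : ∑ l ∈ Ico 1 (n + 1), -g 3 * D l *
      (2 * (g 3 * g (l + 1)) - 2 * (g (l + 1) * g (l + 2))) =
      -2 * (g 3 * g 3) * (∑ l ∈ Ico 1 (n + 1), D l * g (l + 1)) +
        2 * g 3 * ∑ l ∈ Ico 1 (n + 1), D l * (g (l + 1) * g (l + 2)) := by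
    rw [mul_sum, mul_sum, ← sum_add_distrib]
    exact sum_congr rfl (fun l _ => by ring)
  rw [h2, h1, A0] at A2
  have h3 := hgs 3 (by omega) (by omega)
  linear_combination A2 - (2 * (v1 - 2 * ∑ l ∈ Ico 1 (n + 1), D l * g (l + 1))) * h3

end

/-- The pairing of two outer variables (copy). -/
def gamk {k : Type*} [CommRing k] (g : ℕ → k) (i l : ℕ) : k :=
  if l = i then 0 else if l < i then
    g (l + 1) * g (i + 2) + g (l + 2) * g (i + 1) - 2 * (g (l + 1) * g (l + 2)) else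
    g (i + 1) * g (l + 2) + g (i + 2) * g (l + 1) - 2 * (g (i + 1) * g (i + 2))

/-- The linear algebra. -/
theorem linalg {k : Type*} [Field k] (h2 : (2 : k) ≠ 0) {n : ℕ} (hn : 3 ≤ n) {g : ℕ → k}
    (hg : ∀ p, p ≤ 2 ∨ n + 1 < p → g p = 0) (hgs : ∀ p, 3 ≤ p → p ≤ n + 1 → g p * g p = 1)
    (hw : ∀ l, 1 ≤ l → l < n → g (l + 2) * g (l + 3) ≠ g (l + 1) * g (l + 2))
    {D : ℕ → k} {v1 v2 d3 : k}
    (A1 : v2 + 2 * ∑ l ∈ Ico 1 (n + 1), D l * g (l + 2) = 0)
    (A2 : v1 - 2 * ∑ l ∈ Ico 1 (n + 1), D l * g (l + 1) = 0)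
    (A3 : ∑ i ∈ Ico 0 n, ((-g (i + 3) * v2 +
        ∑ j ∈ Ico 1 n, g (j + 2) * (g (i + 3) - 2 * g (i + 3 + j)) * D j) +
        ∑ l ∈ Ico 1 (n + 1), -g (i + 3) * D l * ((if l ≤ i then 1 else -1) * g (l + 2))) = 0)
    (L1 : (v2 + ∑ j ∈ Ico 1 n, g (j + 2) * D j) +
      ∑ l ∈ Ico 1 (n + 1), (D l + if l = n then d3 else 0) * g (l + 2) = 0)
    (L2 : (v1 + ∑ j ∈ Ico 1 n, g (j + 2) * D (j + 1) - d3 * g (n + 1)) +
      ∑ l ∈ Ico 1 (n + 1), (D l + if l = n then d3 else 0) * g (l + 1) = 0)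
    (L3 : ∀ i ∈ Ico 1 (n + 1),
      (v1 + ∑ j ∈ Ico 1 n, g (j + 2) * D (j + 1) - d3 * g (n + 1)) * g (i + 2) +
      (v2 + ∑ j ∈ Ico 1 n, g (j + 2) * D j) * g (i + 1) +
      ∑ l ∈ Ico 1 (n + 1), (D l + if l = n then d3 else 0) * gamk g i l = 0) :
    v1 = 0 ∧ v2 = 0 ∧ d3 = 0 ∧ ∀ l ∈ Ico 1 (n + 1), D l = 0 := by
  set α := v1 + ∑ j ∈ Ico 1 n, g (j + 2) * D (j + 1) - d3 * g (n + 1) with hα
  set β := v2 + ∑ j ∈ Ico 1 n, g (j + 2) * D j with hβ
  set c : ℕ → k := fun l => D l + if l = n then d3 else 0 with hc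
  -- the relations for `c`
  have hB : ∀ i ∈ Ico 1 (n + 1), ∑ l ∈ Ico 1 (n + 1), c l *
      (if l < i then g (l + 1) * g (l + 2) else g (i + 1) * g (i + 2)) = 0 := by
    intro i hi
    have h3 := L3 i hi
    have h4 : ∑ l ∈ Ico 1 (n + 1), c l * gamk g i l =
        (∑ l ∈ Ico 1 (n + 1), c l * g (l + 1)) * g (i + 2) +
        (∑ l ∈ Ico 1 (n + 1), c l * g (l + 2)) * g (i + 1) -
        2 * ∑ l ∈ Ico 1 (n + 1), c l *
          (if l < i then g (l + 1) * g (l + 2) else g (i + 1) * g (i + 2)) := by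
      rw [sum_mul, sum_mul, mul_sum, ← sum_add_distrib, ← sum_sub_distrib]
      apply sum_congr rfl
      intro l _
      simp only [gamk]
      rcases lt_trichotomy l i with h | h | h
      · rw [if_neg (by omega), if_pos h, if_pos h]
        ring
      · subst h
        rw [if_pos rfl, if_neg (by omega)]
        ring
      · rw [if_neg (by omega), if_neg (by omega), if_neg (by omega)]
        ring
    have h5 : (2 : k) * ∑ l ∈ Ico 1 (n + 1), c l *
          (if l < i then g (l + 1) * g (l + 2) else g (i + 1) * g (i + 2)) = 0 := by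
      linear_combination g (i + 2) * L2 + g (i + 1) * L1 - h3 + h4
    exact (mul_eq_zero.1 h5).resolve_left h2
  have hP : ∀ i, 1 ≤ i → i < n → ∑ l ∈ Ico (i + 1) (n + 1), c l = 0 := by
    intro i h1 h3
    have h4 := hB i (mem_Ico.2 ⟨h1, by omega⟩)
    have h5 := hB (i + 1) (mem_Ico.2 ⟨by omega, by omega⟩)
    have h6 : (∑ l ∈ Ico 1 (n + 1), c l *
      (if l < i + 1 then g (l + 1) * g (l + 2) else g (i + 1 + 1) * g (i + 1 + 2))) -
      (∑ l ∈ Ico 1 (n + 1), c l *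
      (if l < i then g (l + 1) * g (l + 2) else g (i + 1) * g (i + 2))) =
      (g (i + 2) * g (i + 3) - g (i + 1) * g (i + 2)) * ∑ l ∈ Ico (i + 1) (n + 1), c l := by
      rw [← sum_sub_distrib, ← sum_Ico_consecutive _ (by omega : 1 ≤ i + 1)
        (by omega : i + 1 ≤ n + 1), mul_sum]
      have h7 : ∑ l ∈ Ico 1 (i + 1), (c l * (if l < i + 1 then g (l + 1) * g (l + 2) else
        g (i + 1 + 1) * g (i + 1 + 2)) - c l *
        (if l < i then g (l + 1) * g (l + 2) else g (i + 1) * g (i + 2))) = 0 := by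
        apply sum_eq_zero
        intro l hl
        rw [mem_Ico] at hl
        rw [if_pos hl.2]
        by_cases h : l < i
        · rw [if_pos h]
          ring
        · have : l = i := by omega
          subst this
          rw [if_neg h]
          ring
      rw [h7, zero_add]
      apply sum_congr rfl
      intro l hl
      rw [mem_Ico] at hl
      rw [if_neg (by omega), if_neg (by omega)]
      ring
    rw [h4, h5, sub_zero] at h6
    exact (mul_eq_zero.1 h6.symm).resolve_left (sub_ne_zero.2 (hw i h1 h3))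
  have hcz : ∀ l, 2 ≤ l → l ≤ n → c l = 0 := by
    intro l h1 h3
    have h4 := hP (l - 1) (by omega) (by omega)
    have e1 : l - 1 + 1 = l := by omega
    rw [e1] at h4
    rcases Nat.eq_or_lt_of_le h3 with h | h
    · subst h
      rw [sum_Ico_succ_top le_rfl] at h4
      simpa using h4
    · have h5 := hP l (by omega) h
      rw [sum_eq_sum_Ico_succ_bot (by omega), h5, add_zero] at h4
      exact h4
  have hD : ∀ l, 2 ≤ l → l < n → D l = 0 := by
    intro l h1 h3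
    have := hcz l h1 h3.le
    simpa [hc, h3.ne] using this
  have hDn : D n = -d3 := by
    have := hcz n (by omega) le_rfl
    simp only [hc, if_pos] at this
    linear_combination this
  -- the sums
  have hs1 : ∑ l ∈ Ico 1 (n + 1), D l * g (l + 1) = D n * g (n + 1) := by
    rw [sum_eq_single_of_mem n (mem_Ico.2 ⟨by omega, by omega⟩)]
    intro l hl hln
    rw [mem_Ico] at hl
    rcases Nat.eq_or_lt_of_le hl.1 with h | h
    · subst h
      rw [hg (1 + 1) (by omega), mul_zero]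
    · rw [hD l h (by omega), zero_mul]
  have hs2 : ∑ j ∈ Ico 1 n, g (j + 2) * D (j + 1) = D n * g (n + 1) := by
    rw [shiftD n (by omega) (fun l => g (l + 1) * D l) (by rw [hg (1 + 1) (by omega), zero_mul]),
      ← hs1]
    exact sum_congr rfl (fun l _ => mul_comm _ _)
  have hs3 : ∑ l ∈ Ico 1 (n + 1), c l * g (l + 1) = 0 := by
    apply sum_eq_zero
    intro l hl
    rw [mem_Ico] at hl
    rcases Nat.eq_or_lt_of_le hl.1 with h | h
    · subst h
      rw [hg (1 + 1) (by omega), mul_zero]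
    · rw [hcz l h (by omega), zero_mul]
  rw [hs3, hα, hs2, add_zero] at L2
  rw [hs1] at A2
  have h4 : (2 : k) * (2 * (D n * g (n + 1))) = 0 := by
    linear_combination L2 - A2 + g (n + 1) * hDn
  have hgn := hgs (n + 1) (by omega) le_rfl
  have hDn0 : D n = 0 := by
    have h5 := (mul_eq_zero.1 ((mul_eq_zero.1 h4).resolve_left h2)).resolve_left h2
    rcases mul_eq_zero.1 h5 with h | h
    · exact h
    · rw [h] at hgn
      simp at hgn
  have hd3 : d3 = 0 := by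
    rw [hDn0] at hDn
    linear_combination hDn
  have hv1 : v1 = 0 := by
    rw [hDn0] at A2
    linear_combination A2
  have hD' : ∀ l, 2 ≤ l → l ≤ n → D l = 0 := by
    intro l h1 h3
    rcases Nat.eq_or_lt_of_le h3 with h | h
    · rw [h, hDn0]
    · exact hD l h1 h
  -- the last relation
  have hs4 : ∑ l ∈ Ico 1 (n + 1), D l * g (l + 2) = D 1 * g 3 := by
    rw [sum_eq_single_of_mem 1 (mem_Ico.2 ⟨by omega, by omega⟩)]
    intro l hl hl1
    rw [mem_Ico] at hl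
    rw [hD' l (by omega) (by omega), zero_mul]
  rw [hs4] at A1
  have hs5 : ∀ i ∈ Ico 0 n, ((-g (i + 3) * v2 +
        ∑ j ∈ Ico 1 n, g (j + 2) * (g (i + 3) - 2 * g (i + 3 + j)) * D j) +
        ∑ l ∈ Ico 1 (n + 1), -g (i + 3) * D l * ((if l ≤ i then 1 else -1) * g (l + 2))) =
      (D 1 * g 3) * (2 * (g (i + 3) - g (i + 3 + 1)) + (if i = 0 then 2 * g 3 else 0)) := by
    intro i _
    rw [sum_eq_single_of_mem 1 (mem_Ico.2 ⟨by omega, by omega⟩),
      sum_eq_single_of_mem 1 (mem_Ico.2 ⟨by omega, by omega⟩)]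
    · by_cases h : i = 0
      · subst h
        rw [if_neg (by omega), if_pos rfl]
        linear_combination -g (0 + 3) * A1
      · rw [if_pos (by omega), if_neg h]
        linear_combination -g (i + 3) * A1
    · intro l hl hl1
      rw [mem_Ico] at hl
      rw [hD' l (by omega) (by omega)]
      ring
    · intro l hl hl1
      rw [mem_Ico] at hl
      rw [hD' l (by omega) (by omega)]
      ring
  rw [sum_congr rfl hs5, ← mul_sum, sum_add_distrib, ← mul_sum, sum_ite_eq',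
    if_pos (mem_Ico.2 ⟨le_rfl, by omega⟩)] at A3
  have hs6 : ∑ i ∈ Ico 0 n, (g (i + 3) - g (i + 3 + 1)) = g 3 - g (n + 3) := by
    have : ∀ N, ∑ i ∈ Ico 0 N, (g (i + 3) - g (i + 3 + 1)) = g 3 - g (N + 3) := by
      intro N
      induction N with
      | zero => simp
      | succ N ih =>
        rw [sum_Ico_succ_top (Nat.zero_le _), ih]
        have e1 : N + 1 + 3 = N + 3 + 1 := by ring
        rw [e1]
        ring
    exact this n
  rw [hs6, hg (n + 3) (by omega)] at A3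
  have hg3 := hgs 3 (by omega) (by omega)
  have h6 : (2 : k) * (2 * D 1) = 0 := by
    linear_combination A3 - 4 * D 1 * hg3
  have hD1 : D 1 = 0 := (mul_eq_zero.1 ((mul_eq_zero.1 h6).resolve_left h2)).resolve_left h2
  refine ⟨hv1, ?_, hd3, ?_⟩
  · rw [hD1] at A1
    linear_combination A1
  · intro l hl
    rw [mem_Ico] at hl
    rcases Nat.eq_or_lt_of_le hl.1 with h | h
    · rw [← h, hD1]
    · exact hD' l h (by omega)

end Pool.Agent.Helper95K9.HO
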