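import Pool.Agent.Helper86K9.HK.Tan

/-!
# Cancellation and extraction of coefficients in the universal algebra
-/

set_option autoImplicit false

namespace Pool.Agent.Helper95K9.HO

open Finset
open Pool.Agent.Helper86K9.HK

universe u

theorem mem_iff {A : Type u} [CommRing A] (p : MvPolynomial ℕ A) :
    p ∈ Ideal.span (Set.range fun c : ℕ => (MvPolynomial.X c ^ 2 : MvPolynomial ℕ A)) ↔
      ∀ s ∈ p.support, ∃ c, 2 ≤ s c := by
  have hset : (Set.range fun c : ℕ => (MvPolynomial.X c ^ 2 : MvPolynomial ℕ A)) =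
      (fun s : ℕ →₀ ℕ => MvPolynomial.monomial s (1 : A)) ''
        (Set.range fun c : ℕ => Finsupp.single c 2) := by
    ext q
    constructor
    · rintro ⟨c, rfl⟩
      exact ⟨_, ⟨c, rfl⟩, by simp [MvPolynomial.X_pow_eq_monomial]⟩
    · rintro ⟨_, ⟨c, rfl⟩, rfl⟩
      exact ⟨c, by simp [MvPolynomial.X_pow_eq_monomial]⟩
  rw [hset, MvPolynomial.mem_ideal_span_monomial_image]
  constructor
  · intro h s hs
    obtain ⟨_, ⟨c, rfl⟩, hc⟩ := h s hs
    refine ⟨c, ?_⟩
    have := hc c
    simpa using this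
  · intro h s hs
    obtain ⟨c, hc⟩ := h s hs
    refine ⟨_, ⟨c, rfl⟩, ?_⟩
    rw [Finsupp.single_le_iff]
    exact hc

/-- The universal algebra is torsion free. -/
theorem tf {A : Type u} [CommRing A] [IsDomain A] {a : A} (ha : a ≠ 0) {f : Sq A}
    (h : algebraMap A (Sq A) a * f = 0) : f = 0 := by
  obtain ⟨p, rfl⟩ := Ideal.Quotient.mk_surjective f
  have h1 : algebraMap A (Sq A) a = Ideal.Quotient.mk _ (MvPolynomial.C a) := rfl
  rw [h1, ← map_mul, Ideal.Quotient.eq_zero_iff_mem, mem_iff] at h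
  rw [Ideal.Quotient.eq_zero_iff_mem, mem_iff]
  intro s hs
  apply h s
  rw [MvPolynomial.mem_support_iff, MvPolynomial.coeff_C_mul]
  exact mul_ne_zero ha (MvPolynomial.mem_support_iff.1 hs)

/-- Coefficients of square free monomials, modulo an element. -/
theorem extr {A : Type u} [CommRing A] {a b : A} {C : Finset ℕ} {t : Sq A}
    (h : algebraMap A (Sq A) a * ∏ c ∈ C, sqx A c = algebraMap A (Sq A) b * t) : b ∣ a := by
  obtain ⟨p, rfl⟩ := Ideal.Quotient.mk_surjective t
  have h1 : ∀ a : A, algebraMap A (Sq A) a = Ideal.Quotient.mk _ (MvPolynomial.C a) :=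
    fun _ => rfl
  rw [h1, h1] at h
  simp only [sqx] at h
  rw [← map_prod, ← map_mul, ← map_mul, Ideal.Quotient.eq] at h
  have h2 := Alg.coeff_eq_zero h (∑ c ∈ C, Finsupp.single c 1) (by
    intro c
    rw [Finsupp.finsetSum_apply]
    by_cases hc : c ∈ C
    · rw [Finset.sum_eq_single_of_mem c hc]
      · simp
      · intro b _ hb
        rw [Finsupp.single_apply, if_neg hb]
    · rw [Finset.sum_eq_zero]
      · omega
      · intro b hb
        rw [Finsupp.single_apply, if_neg]
        rintro rfl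
        exact hc hb)
  have h3 : (∏ c ∈ C, MvPolynomial.X c : MvPolynomial ℕ A) =
      MvPolynomial.monomial (∑ c ∈ C, Finsupp.single c 1) 1 := by
    rw [MvPolynomial.monomial_sum_one]
    rfl
  rw [h3, MvPolynomial.coeff_sub, MvPolynomial.coeff_C_mul, MvPolynomial.coeff_C_mul,
    MvPolynomial.coeff_monomial, if_pos rfl, mul_one, sub_eq_zero] at h2
  exact ⟨_, h2⟩

end Pool.Agent.Helper95K9.HO
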