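import Pool.Agent.Helper95K9.HO.Tanrel
import Pool.Agent.Helper95K9.HO.Sqa

/-!
# The point lies on the variety; change of rings
-/

set_option autoImplicit false

namespace Pool.Agent.Helper95K9.HO

open Finset TrivSqZeroExt
open Pool.Agent.Helper86K9.HK

universe u

/-! ## Change of rings -/

theorem perm_map {R R' : Type*} [CommRing R] [CommRing R'] (f : R →+* R') {m n t : ℕ}
    (z : ℕ → R) (r : Fin t ↪ Fin m) (c : Fin t ↪ Fin n) :
    f (((hk m n z).submatrix r c).permanent) =
      ((hk m n fun j => f (z j)).submatrix r c).permanent := by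
  rw [Matrix.permanent, Matrix.permanent, map_sum]
  apply sum_congr rfl
  intro σ _
  rw [map_prod]
  rfl

theorem van_map {R R' : Type*} [CommRing R] [CommRing R'] (f : R →+* R') {t m n : ℕ}
    {z : ℕ → R} (h : Van t m n z) : Van t m n fun j => f (z j) := by
  intro r c
  rw [← perm_map, h r c, map_zero]

theorem van_inj {R R' : Type*} [CommRing R] [CommRing R'] {f : R →+* R'}
    (hf : Function.Injective f) {t m n : ℕ} {z : ℕ → R} (h : Van t m n fun j => f (z j)) :
    Van t m n z := by
  intro r c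
  apply hf
  rw [perm_map, h r c, map_zero]

theorem van_congr {R : Type*} [CommRing R] {t m n : ℕ} {z z' : ℕ → R}
    (hz : ∀ p, 1 ≤ p → p ≤ m + n - 1 → z p = z' p) (h : Van t m n z) : Van t m n z' := by
  intro r c
  rw [← h r c]
  congr 1
  ext i j
  simp only [Matrix.submatrix_apply, hk, Matrix.of_apply]
  have h1 := (r i).isLt
  have h2 := (c j).isLt
  rw [hz _ (by omega) (by omega)]

/-- Multiplication of the second component. -/
def sc {K : Type*} [CommRing K] (c : K) : DualNumber K →+* DualNumber K where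
  toFun x := inl x.fst + inr (c * x.snd)
  map_one' := by ext <;> simp
  map_mul' x y := by
    ext
    · simp
    · simp
      ring
  map_zero' := by ext <;> simp
  map_add' x y := by
    ext
    · simp
    · simp
      ring

theorem sc_apply {K : Type*} [CommRing K] (c a b : K) :
    sc c (inl a + inr b : DualNumber K) = inl a + inr (c * b) := by
  ext <;> simp [sc]

theorem dmap_inj {k S : Type*} [CommRing k] [CommRing S] {f : k →+* S}
    (hf : Function.Injective f) : Function.Injective (TanL.dmap f) := by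
  intro x y h
  have h1 : x = inl x.fst + inr x.snd := by ext <;> simp
  have h2 : y = inl y.fst + inr y.snd := by ext <;> simp
  rw [h1, h2, TanL.dmap_apply, TanL.dmap_apply] at h
  have h3 := congrArg TrivSqZeroExt.fst h
  have h4 := congrArg TrivSqZeroExt.snd h
  simp at h3 h4
  ext
  · exact hf h3
  · exact hf h4

/-- Clearing denominators. -/
theorem tan_clear {A K : Type*} [CommRing A] [CommRing K] {f : A →+* K}
    (hf : Function.Injective f) {t m n : ℕ} {q δ : ℕ → A} {δK : ℕ → K} (c : K)
    (h : ∀ p, 1 ≤ p → p ≤ m + n - 1 → f (δ p) = c * δK p)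
    (hT : Tan t m n (fun p => f (q p)) δK) : Tan t m n q δ := by
  rw [Tan] at hT ⊢
  refine van_inj (dmap_inj hf) ?_
  refine van_congr ?_ (van_map (sc c) hT)
  intro p h1 h2
  rw [sc_apply, TanL.dmap_apply, h p h1 h2]

/-- Division by a non zero element. -/
theorem tan_div {A : Type u} [CommRing A] [IsDomain A] {t m n : ℕ} {q δ δ' : ℕ → A} {X : A}
    (hX : X ≠ 0) (hq : Van t m n q) (h : ∀ p, 1 ≤ p → p ≤ m + n - 1 → δ p = X * δ' p)
    (hT : Tan t m n q δ) : Tan t m n q δ' := by
  refine tan2 A t m n q δ' hq ?_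
  intro T hT1 hT2
  have h1 := tan1 A (Sq A) t m n q δ hT (sqx A) (alg3 A).1 T hT1 hT2
  have h2 : ∑ r ∈ T, row n δ (sqx A) r * ∏ r' ∈ T.erase r, row n q (sqx A) r' =
      algebraMap A (Sq A) X *
        ∑ r ∈ T, row n δ' (sqx A) r * ∏ r' ∈ T.erase r, row n q (sqx A) r' := by
    rw [mul_sum]
    apply sum_congr rfl
    intro r hr
    have hr' := mem_range.1 (hT1 hr)
    rw [← mul_assoc]
    congr 1
    rw [row, row, mul_sum]
    apply sum_congr rfl
    intro c hc
    rw [mem_Icc] at hc
    have e1 : ∀ a : A, a • sqx A c = algebraMap A (Sq A) a * sqx A c := fun a =>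
      Algebra.smul_def (R := A) (A := Sq A) _ _
    rw [h (r + c) (by omega) (by omega), e1, e1, map_mul]
    ring
  rw [h2] at h1
  exact tf hX h1

section

variable {A S : Type u} [CommRing A] [CommRing S] [Algebra A S] {n : ℕ}

/-- The rows of an arbitrary sequence, unscaled. -/
theorem row_gen' (z : ℕ → S) (d : ℕ → A) (r : ℕ) :
    row (2 * n + 2) d z r = algebraMap A S (d (r + 1)) * z 1 +
      algebraMap A S (d (r + 2)) * z 2 +
      (∑ l ∈ Ico 1 (n + 1), algebraMap A S (d (r + (l + 2))) * z (l + 2)) +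
      (∑ j ∈ Ico 1 (n + 1), algebraMap A S (d (r + (2 * n + 3 - j))) *
        ys n z j) := by
  rw [row, sum_cols]
  simp only [Algebra.smul_def]
  have a4 : ∑ j ∈ Ico 1 (n + 1), algebraMap A S (d (r + (2 * n + 3 - j))) *
        z (2 * n + 3 - j) =
      ∑ j ∈ Ico 1 (n + 1), (algebraMap A S (d (r + (2 * n + 3 - j))) *
        ys n z j) := by
    apply sum_congr rfl
    intro j hj
    rw [mem_Ico] at hj
    rw [ys, if_pos ⟨hj.1, by omega⟩]
  rw [a4]

variable {X : A} {g : ℕ → A} (hg : ∀ p, p ≤ 2 ∨ n + 1 < p → g p = 0) (hn : 3 ≤ n) (z : ℕ → S)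

include hg hn in
theorem rowq0' : row (2 * n + 2) (qq n X g) z 0 =
    algebraMap A S X * ∑ l ∈ Ico 1 (n + 1),
      (algebraMap A S (g (l + 1 + 1)) - algebraMap A S (g (l + 1))) * z (l + 2) := by
  rw [row_gen']
  have h1 : qq n X g (0 + 1) = 0 := by
    rw [qq, if_neg (by omega), if_neg (by omega), hg 1 (by omega), hg 0 (by omega)]
    ring
  have h2 : qq n X g (0 + 2) = 0 := by
    rw [qq, if_neg (by omega), if_neg (by omega), hg 2 (by omega), hg 1 (by omega)]
    ring
  have h3 : ∑ j ∈ Ico 1 (n + 1), algebraMap A S (qq n X g (0 + (2 * n + 3 - j))) *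
        ys n z j = 0 := by
    apply sum_eq_zero
    intro j hj
    rw [mem_Ico] at hj
    rw [qq, if_neg (by omega), if_neg (by omega), hg (0 + (2 * n + 3 - j)) (by omega),
      hg (0 + (2 * n + 3 - j) - 1) (by omega)]
    simp
  have h4 : ∑ l ∈ Ico 1 (n + 1), algebraMap A S (qq n X g (0 + (l + 2))) * z (l + 2) =
      algebraMap A S X * ∑ l ∈ Ico 1 (n + 1),
      (algebraMap A S (g (l + 1 + 1)) - algebraMap A S (g (l + 1))) * z (l + 2) := by
    rw [mul_sum]
    apply sum_congr rfl
    intro l hl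
    rw [mem_Ico] at hl
    have e1 : 0 + (l + 2) = l + 1 + 1 := by ring
    rw [qq, if_neg (by omega), if_neg (by omega), e1, Nat.add_sub_cancel, add_zero, add_zero,
      map_mul, map_sub]
    ring
  rw [h1, h2, h3, h4, map_zero]
  ring

include hg hn in
theorem rowqj' {j : ℕ} (hj : j ∈ Ico 1 n) :
    row (2 * n + 2) (qq n X g) z (2 * n + 1 - j) = z (j + 2) + z (j + 1 + 2) := by
  rw [mem_Ico] at hj
  rw [row_gen']
  have h1 : qq n X g (2 * n + 1 - j + 1) = 0 := by
    rw [qq, if_neg (by omega), if_neg (by omega), hg _ (by omega), hg _ (by omega)]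
    ring
  have h2 : qq n X g (2 * n + 1 - j + 2) = 0 := by
    rw [qq, if_neg (by omega), if_neg (by omega), hg _ (by omega), hg _ (by omega)]
    ring
  have h3 : ∑ j' ∈ Ico 1 (n + 1), algebraMap A S (qq n X g (2 * n + 1 - j + (2 * n + 3 - j'))) *
        ys n z j' = 0 := by
    apply sum_eq_zero
    intro j' hj'
    rw [mem_Ico] at hj'
    rw [qq, if_neg (by omega), if_neg (by omega), hg _ (by omega), hg _ (by omega)]
    simp
  have h4 : ∑ l ∈ Ico 1 (n + 1), algebraMap A S (qq n X g (2 * n + 1 - j + (l + 2))) *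
      z (l + 2) = z (j + 2) + z (j + 1 + 2) := by
    have e1 : ∀ l ∈ Ico 1 (n + 1), algebraMap A S (qq n X g (2 * n + 1 - j + (l + 2))) *
        z (l + 2) = (if l = j then z (j + 2) else 0) + (if l = j + 1 then z (j + 1 + 2) else 0) := by
      intro l hl
      rw [mem_Ico] at hl
      rw [qq, hg (2 * n + 1 - j + (l + 2)) (by omega),
        hg (2 * n + 1 - j + (l + 2) - 1) (by omega)]
      by_cases h : l = j
      · subst h
        rw [if_pos (by omega), if_neg (by omega), if_pos rfl, if_neg (by omega)]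
        simp
      · by_cases h' : l = j + 1
        · subst h'
          rw [if_neg (by omega), if_pos (by omega), if_neg (by omega), if_pos rfl]
          simp
        · rw [if_neg (by omega), if_neg (by omega), if_neg h, if_neg h']
          simp
    rw [sum_congr rfl e1, sum_add_distrib, sum_ite_eq', sum_ite_eq',
      if_pos (mem_Ico.2 ⟨by omega, by omega⟩), if_pos (mem_Ico.2 ⟨by omega, by omega⟩)]
  rw [h1, h2, h3, h4, map_zero]
  ring

end

/-- The point lies on the variety. -/
theorem van_qq {A : Type u} [CommRing A] {n : ℕ} {X : A} {g : ℕ → A}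
    (hg : ∀ p, p ≤ 2 ∨ n + 1 < p → g p = 0) (hn : 3 ≤ n) :
    Van (2 * n + 1) (2 * n + 1) (2 * n + 2) (qq n X g) := by
  refine alg2 A _ _ _ _ ?_
  intro T hT1 hT2
  have hT : T = range (2 * n + 1) := eq_of_subset_of_card_le hT1 (by rw [hT2, card_range])
  rw [hT, prod_rows n (by omega), rowq0' hg hn (sqx A)]
  have h1 : ∏ j ∈ Ico 1 n, row (2 * n + 2) (qq n X g) (sqx A) (2 * n + 1 - j) =
      PP (fun l => sqx A (l + 2)) 1 n := by
    rw [PP]
    exact prod_congr rfl (fun j hj => rowqj' hg hn (sqx A) hj)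
  have hE0 : ∑ l ∈ Ico 1 (n + 1), (algebraMap A (Sq A) (g (l + 1 + 1)) -
      algebraMap A (Sq A) (g (l + 1))) * sqx A (l + 2) =
      ∑ i ∈ Ico 1 n, algebraMap A (Sq A) (g (i + 1 + 1)) *
        (sqx A (i + 2) - sqx A (i + 1 + 2)) := by
    have := abel (e := fun l => sqx A (l + 2)) (fun i => algebraMap A (Sq A) (g (i + 1)))
      (n := n) (by omega)
    rw [this, hg (n + 1 + 1) (by omega), hg (1 + 1) (by omega), map_zero]
    ring
  have h5 := E0P (e := fun l => sqx A (l + 2)) (fun i => (alg3 A).1 _)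
    (fun i => algebraMap A (Sq A) (g (i + 1))) n
  rw [h1, hE0]
  linear_combination algebraMap A (Sq A) X *
    (∏ i ∈ Ico 0 (n + 1), row (2 * n + 2) (qq n X g) (sqx A) (i + 1)) * h5

end Pool.Agent.Helper95K9.HO
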