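import Pool.Agent.Helper95K9.HO.Out
import Pool.Agent.Helper95K9.HO.Vanq
import Pool.Agent.Helper86K9.HK.Crit1

/-!
# Hankel permanental ideals: `n = t + 1`, `t` odd
-/

set_option autoImplicit false

namespace Pool.Agent.Helper95K9.HO

open Finset TrivSqZeroExt
open Pool.Agent.Helper86K9.HK

universe u

/-- The signs. -/
def gg (R : Type*) [CommRing R] (n p : ℕ) : R :=
  if 3 ≤ p ∧ p ≤ n + 1 then (if p % 4 = 3 ∨ p % 4 = 0 then 1 else -1) else 0

theorem gg_map {R R' : Type*} [CommRing R] [CommRing R'] (f : R →+* R') (n p : ℕ) :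
    f (gg R n p) = gg R' n p := by
  simp only [gg]
  split_ifs <;> simp

theorem gg_supp (R : Type*) [CommRing R] (n : ℕ) : ∀ p, p ≤ 2 ∨ n + 1 < p → gg R n p = 0 := by
  intro p hp
  rw [gg, if_neg (by omega)]

theorem gg_sq (R : Type*) [CommRing R] (n : ℕ) :
    ∀ p, 3 ≤ p → p ≤ n + 1 → gg R n p * gg R n p = 1 := by
  intro p h1 h2
  rw [gg, if_pos ⟨h1, h2⟩]
  split_ifs <;> ring

theorem gg_val (R : Type*) [CommRing R] {n p : ℕ} (h1 : 3 ≤ p) (h2 : p ≤ n + 1) :
    gg R n p = if p % 4 = 3 ∨ p % 4 = 0 then 1 else -1 := by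
  rw [gg, if_pos ⟨h1, h2⟩]

theorem gg_ne (k : Type*) [Field k] (h2 : (2 : k) ≠ 0) {n : ℕ} (hn : 3 ≤ n) :
    ∀ l, 1 ≤ l → l < n →
      gg k n (l + 2) * gg k n (l + 3) ≠ gg k n (l + 1) * gg k n (l + 2) := by
  intro l h1 h3 h
  have h4 := gg_sq k n (l + 2) (by omega) (by omega)
  have h5 : gg k n (l + 3) = gg k n (l + 1) := by
    linear_combination gg k n (l + 2) * h - (gg k n (l + 3) - gg k n (l + 1)) * h4
  have hone : (1 : k) ≠ 0 := one_ne_zero
  by_cases h6 : l = 1
  · subst h6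
    rw [gg, gg, if_pos ⟨by omega, by omega⟩, if_pos (by omega), if_neg (by omega)] at h5
    exact hone h5
  · by_cases h7 : n + 1 < l + 3
    · rw [gg, if_neg (by omega)] at h5
      have h8 := gg_sq k n (l + 1) (by omega) (by omega)
      rw [← h5] at h8
      simp at h8
    · rw [gg_val k (by omega) (by omega), gg_val k (by omega) (by omega)] at h5
      by_cases h8 : (l + 1) % 4 = 3 ∨ (l + 1) % 4 = 0
      · have h9 : ¬((l + 3) % 4 = 3 ∨ (l + 3) % 4 = 0) := by omega
        rw [if_pos h8, if_neg h9] at h5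
        apply h2
        linear_combination -h5
      · have h9 : (l + 3) % 4 = 3 ∨ (l + 3) % 4 = 0 := by omega
        rw [if_neg h8, if_pos h9] at h5
        apply h2
        linear_combination h5

open Polynomial

/-- One step of the descent. -/
theorem step {k : Type u} [Field k] (h2 : (2 : k) ≠ 0) {n : ℕ} (hn : 3 ≤ n)
    {δ : ℕ → k[X]} (hT : Tan (2 * n + 1) (2 * n + 1) (2 * n + 2)
      (qq n (X : k[X]) (gg k[X] n)) δ)
    (hB1 : ∀ p, 2 * n + 3 ≤ p → p ≤ 3 * n + 2 → δ p = 0) (hB2 : δ (4 * n + 2) = 0)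
    (hB3 : ∀ p, 4 ≤ p → p ≤ n + 2 → δ p = 0) {v1 v2 : k[X]}
    (h1 : δ 1 = X * v1) (h2' : δ 2 = X * v2) :
    X ∣ v1 ∧ X ∣ v2 ∧ ∀ p, 3 ≤ p → p ≤ 4 * n + 2 → X ∣ δ p := by
  set g := gg k[X] n with hgdef
  have hg := gg_supp k[X] n
  have hgs := gg_sq k[X] n
  rw [← hgdef] at hg hgs
  have hX : (X : k[X]) ≠ 0 := X_ne_zero
  have h2A : (2 : k[X]) ≠ 0 := by
    intro h
    apply h2
    have := congrArg (fun p => coeff p 0) h
    simpa using this
  have hup := upper hg hn hX h2A hgs hT h1 h2' hB1 hB2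
  have hRR := rr_main hg hn hX h2A hT h1 h2' hup hB3
  have A0 := relT0_scal hg hn hX h2A hT h1 h2'
  set D : ℕ → k[X] := fun l => δ (2 * n + 3 - l) with hD
  have B1 := valv2 hn hg hgs (D := D) A0 (sN2 hg hn (D := D) hRR)
  have B2 := valv1 hn hg hgs (D := D) A0 (sN1 hg hn (D := D) hX hRR)
  replace B1 := (mul_eq_zero.1 B1).resolve_left h2A
  replace B2 := (mul_eq_zero.1 B2).resolve_left h2A
  have B3 : ∑ i ∈ Ico 0 n, ((-g (i + 3) * v2 +
        ∑ j ∈ Ico 1 n, g (j + 2) * (g (i + 3) - 2 * g (i + 3 + j)) * D j) +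
        ∑ l ∈ Ico 1 (n + 1), -g (i + 3) * D l * ((if l ≤ i then 1 else -1) * g (l + 2))) = 0 := by
    have h3 := sX1 hg hn (D := D) hRR
    have h4 : ∑ j ∈ Ico 1 n, g (j + 2) * D j = ∑ l ∈ Ico 1 (n + 1), D l * g (l + 2) := by
      rw [topD n (by omega) (fun j => g (j + 2) * D j)
        (by rw [hg (n + 2) (by omega), zero_mul])]
      exact sum_congr rfl (fun l _ => mul_comm _ _)
    have h5 : X * ∑ i ∈ Ico 0 n, ((-g (i + 3) * v2 +
        ∑ j ∈ Ico 1 n, g (j + 2) * (g (i + 3) - 2 * g (i + 3 + j)) * D j) +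
        ∑ l ∈ Ico 1 (n + 1), -g (i + 3) * D l * ((if l ≤ i then 1 else -1) * g (l + 2))) = 0 := by
      rw [h4] at h3
      linear_combination h3 - B1
    exact (mul_eq_zero.1 h5).resolve_left hX
  have C1 := sLs hg hn (D := D) hRR
  have C2 := sLu hg hn (D := D) hRR
  have C3 := fun (i : ℕ) (hi : i ∈ Ico 1 (n + 1)) => sLy hg hn (D := D) hRR hi
  -- pass to the residue field
  have hdvd : ∀ a : k[X], X ∣ a ↔ constantCoeff a = 0 := by
    intro a
    rw [X_dvd_iff]
    rfl
  have hgm : ∀ p, constantCoeff (g p) = gg k n p := fun p => gg_map _ _ _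
  have hpi : constantCoeff (pis n X g δ) = constantCoeff (δ 3) := by
    rw [pis, map_add, map_mul]
    simp
  have hite : ∀ (a b : k[X]) (P : Prop) [Decidable P],
      constantCoeff (a + if P then b else 0) =
        (constantCoeff a + if P then constantCoeff b else 0) := by
    intro a b P _
    split_ifs <;> simp
  have hgam : ∀ i l, constantCoeff (gamk g i l) = gamk (gg k n) i l := by
    intro i l
    rw [← gam_map]
    simp only [hgm]
    rfl
  have key := linalg (k := k) h2 hn (g := gg k n) (gg_supp k n) (gg_sq k n) (gg_ne k h2 hn)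
    (D := fun l => constantCoeff (D l)) (v1 := constantCoeff v1) (v2 := constantCoeff v2)
    (d3 := constantCoeff (δ 3))
    (by
      have := congrArg constantCoeff B1
      simp only [map_add, map_sub, map_mul, map_sum, map_ofNat, map_zero, hgm] at this
      exact this)
    (by
      have := congrArg constantCoeff B2
      simp only [map_add, map_sub, map_mul, map_sum, map_ofNat, map_zero, hgm] at this
      exact this)
    (by
      have := congrArg constantCoeff B3
      simp only [map_add, map_sub, map_mul, map_sum, map_ofNat, map_neg, map_zero, map_one, hgm,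
        apply_ite] at this
      exact this)
    (by
      have := (hdvd _).1 C1
      simp only [map_add, map_sub, map_mul, map_sum, map_ofNat, map_zero, hgm, hite, hpi] at this
      exact this)
    (by
      have := (hdvd _).1 C2
      simp only [map_add, map_sub, map_mul, map_sum, map_ofNat, map_zero, hgm, hite, hpi] at this
      exact this)
    (by
      intro i hi
      have := (hdvd _).1 (C3 i hi)
      simp only [map_add, map_sub, map_mul, map_sum, map_ofNat, map_zero, hgm, hite, hpi,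
        hgam] at this
      exact this)
  obtain ⟨k1, k2, k3, k4⟩ := key
  refine ⟨(hdvd _).2 k1, (hdvd _).2 k2, ?_⟩
  intro p hp1 hp2
  by_cases h3 : p = 3
  · rw [h3]
    exact (hdvd _).2 k3
  · by_cases h4 : p ≤ n + 2
    · rw [hB3 p (by omega) h4]
      exact dvd_zero _
    · by_cases h5 : 2 * n + 3 ≤ p
      · rw [hup p h5 hp2]
        exact dvd_zero _
      · have h6 := k4 (2 * n + 3 - p) (mem_Ico.2 ⟨by omega, by omega⟩)
        have e1 : 2 * n + 3 - (2 * n + 3 - p) = p := by omega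
        simp only [hD, e1] at h6
        exact (hdvd _).2 h6

/-- The descent. -/
theorem descent {k : Type u} [Field k] (h2 : (2 : k) ≠ 0) {n : ℕ} (hn : 3 ≤ n) (N : ℕ) :
    ∀ {δ : ℕ → k[X]}, Tan (2 * n + 1) (2 * n + 1) (2 * n + 2)
      (qq n (X : k[X]) (gg k[X] n)) δ →
    (∀ p, 2 * n + 3 ≤ p → p ≤ 3 * n + 2 → δ p = 0) → δ (4 * n + 2) = 0 →
    (∀ p, 4 ≤ p → p ≤ n + 2 → δ p = 0) → X ∣ δ 1 → X ∣ δ 2 →
    ∀ p, 1 ≤ p → p ≤ 4 * n + 2 → X ^ N ∣ δ p := by
  induction N with
  | zero =>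
    intro δ _ _ _ _ _ _ p _ _
    simp
  | succ N ih =>
    intro δ hT hB1 hB2 hB3 h1 h2' p hp1 hp2
    obtain ⟨v1, hv1⟩ := h1
    obtain ⟨v2, hv2⟩ := h2'
    obtain ⟨s1, s2, s3⟩ := step h2 hn hT hB1 hB2 hB3 hv1 hv2
    have hX : (X : k[X]) ≠ 0 := X_ne_zero
    have hall : ∀ p, 1 ≤ p → p ≤ 4 * n + 2 → ∃ a, δ p = X * a := by
      intro p hp1 hp2
      rcases Nat.lt_or_ge p 3 with h | h
      · rcases Nat.lt_or_ge p 2 with h' | h'
        · have : p = 1 := by omega
          subst this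
          exact ⟨v1, hv1⟩
        · have : p = 2 := by omega
          subst this
          exact ⟨v2, hv2⟩
      · exact s3 p h hp2
    choose! δ' hδ' using hall
    have hz : ∀ p, 1 ≤ p → p ≤ 4 * n + 2 → δ p = 0 → δ' p = 0 := by
      intro p hp1 hp2 h
      have := hδ' p hp1 hp2
      rw [h] at this
      exact (mul_eq_zero.1 this.symm).resolve_left hX
    have hT' : Tan (2 * n + 1) (2 * n + 1) (2 * n + 2)
      (qq n (X : k[X]) (gg k[X] n)) δ' :=
      tan_div hX (van_qq (gg_supp _ n) hn) (fun p hp1 hp2 => hδ' p hp1 (by omega)) hT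
    have e1 : δ' 1 = v1 := by
      have := hδ' 1 le_rfl (by omega)
      rw [hv1] at this
      exact (mul_left_cancel₀ hX this).symm
    have e2 : δ' 2 = v2 := by
      have := hδ' 2 (by omega) (by omega)
      rw [hv2] at this
      exact (mul_left_cancel₀ hX this).symm
    have := ih hT' (fun p hp1 hp2 => hz p (by omega) (by omega) (hB1 p hp1 hp2))
      (hz _ (by omega) le_rfl hB2) (fun p hp1 hp2 => hz p (by omega) (by omega) (hB3 p hp1 hp2))
      (by rw [e1]; exact s1) (by rw [e2]; exact s2) p hp1 hp2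
    rw [hδ' p hp1 hp2, pow_succ']
    exact mul_dvd_mul_left _ this

theorem eq_zero_of_pow {k : Type u} [Field k] {a : k[X]} (h : ∀ N, X ^ N ∣ a) : a = 0 := by
  ext i
  have := X_pow_dvd_iff.1 (h (i + 1)) i (by omega)
  simpa using this

/-- `n = t + 1`, `t = 2 m - 1 ≥ 7` odd: the ideal is not prime. -/
theorem odd (k : Type u) [Field k] (h2 : (2 : k) ≠ 0) (m : ℕ) (hm : 4 ≤ m) :
    ¬ (hankelIdeal k (2 * m - 1) (2 * m - 1) (2 * m)).IsPrime := by
  obtain ⟨n, rfl⟩ : ∃ n, m = n + 1 := ⟨m - 1, by omega⟩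
  have hn : 3 ≤ n := by omega
  have e1 : 2 * (n + 1) - 1 = 2 * n + 1 := by omega
  have e2 : 2 * (n + 1) = 2 * n + 2 := by ring
  rw [e1, e2]
  have hinj : Function.Injective (algebraMap k[X] (FractionRing k[X])) :=
    IsFractionRing.injective _ _
  refine crit1K k (FractionRing k[X]) (2 * n + 1) (2 * n + 1) (2 * n + 2) (by omega) le_rfl
    (by omega) (fun p => algebraMap k[X] (FractionRing k[X]) (qq n X (gg k[X] n) p))
    (van_map _ (van_qq (gg_supp _ n) hn))
    (Icc 4 (n + 2) ∪ Icc (2 * n + 3) (3 * n + 2) ∪ {4 * n + 2}) ?_ ?_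
  · refine (card_union_le _ _).trans_lt ?_
    refine (Nat.add_le_add_right (card_union_le _ _) _).trans_lt ?_
    rw [Nat.card_Icc, Nat.card_Icc, card_singleton]
    omega
  · classical
    intro δ hT hB j hj1 hj2
    -- clear denominators
    obtain ⟨b, hb⟩ := IsLocalization.exist_integer_multiples_of_finset
      (nonZeroDivisors k[X]) ((Icc 1 (4 * n + 2)).image δ)
    have hb' : ∀ p, 1 ≤ p → p ≤ 4 * n + 2 →
        ∃ a, algebraMap k[X] (FractionRing k[X]) a =
          algebraMap k[X] (FractionRing k[X]) b * δ p := by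
      intro p hp1 hp2
      obtain ⟨a, ha⟩ := hb (δ p) (mem_image_of_mem _ (mem_Icc.2 ⟨hp1, hp2⟩))
      refine ⟨a, ?_⟩
      rw [ha, Algebra.smul_def]
    choose! a ha using hb'
    have hz : ∀ p, 1 ≤ p → p ≤ 4 * n + 2 → δ p = 0 → a p = 0 := by
      intro p hp1 hp2 h
      have := ha p hp1 hp2
      rw [h, mul_zero] at this
      exact (map_eq_zero_iff _ hinj).1 this
    have hTA : Tan (2 * n + 1) (2 * n + 1) (2 * n + 2)
      (qq n (X : k[X]) (gg k[X] n)) (fun p => X * a p) :=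
      tan_clear hinj (algebraMap k[X] (FractionRing k[X]) (X * (b : k[X])))
        (fun p hp1 hp2 => by
          rw [map_mul, map_mul, ha p hp1 (by omega), mul_assoc]) hT
    have hmem : ∀ p, ((4 ≤ p ∧ p ≤ n + 2) ∨ (2 * n + 3 ≤ p ∧ p ≤ 3 * n + 2) ∨ p = 4 * n + 2) →
        a p = 0 := by
      intro p hp
      refine hz p (by omega) (by omega) (hB p ?_)
      simp only [mem_union, mem_Icc, mem_singleton]
      tauto
    have hzero : X * a j = 0 := eq_zero_of_pow (fun N => descent h2 hn N hTA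
      (fun p hp1 hp2 => by rw [hmem p (Or.inr (Or.inl ⟨hp1, hp2⟩)), mul_zero])
      (by rw [hmem _ (Or.inr (Or.inr rfl)), mul_zero])
      (fun p hp1 hp2 => by rw [hmem p (Or.inl ⟨hp1, hp2⟩), mul_zero])
      (dvd_mul_right _ _) (dvd_mul_right _ _) j hj1 (by omega))
    have haj : a j = 0 := (mul_eq_zero.1 hzero).resolve_left X_ne_zero
    have h3 := ha j hj1 (by omega)
    rw [haj, map_zero] at h3
    refine (mul_eq_zero.1 h3.symm).resolve_left ?_
    intro h4
    exact nonZeroDivisors.ne_zero b.2 ((map_eq_zero_iff _ hinj).1 h4)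

end Pool.Agent.Helper95K9.HO

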