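import Pool.Agent.Helper95K9.HO.Scal

/-!
# The scalar relations, second part
-/

set_option autoImplicit false

namespace Pool.Agent.Helper95K9.HO

open Finset
open Pool.Agent.Helper86K9.HK

universe u

theorem gam_map {A B : Type*} [CommRing A] [CommRing B] (f : A →+* B) (g : ℕ → A) (k l : ℕ) :
    gam (fun p => f (g p)) k l = f (gamk g k l) := by
  simp only [gam, gamk]
  split_ifs
  · rw [map_zero]
  · simp only [map_sub, map_add, map_mul, map_ofNat]
  · simp only [map_sub, map_add, map_mul, map_ofNat]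

section

variable {A : Type u} [CommRing A] [IsDomain A] {n : ℕ} {X : A} {g : ℕ → A}
  (hg : ∀ p, p ≤ 2 ∨ n + 1 < p → g p = 0) (hn : 3 ≤ n) {D : ℕ → A} {π v1 v2 : A} (hX : X ≠ 0)
  (hRR : RR n (algebraMap A (Sq A) X) (sqx A 1) (sqx A 2) (ys n (sqx A))
    (fun l => sqx A (l + 2)) (fun p => algebraMap A (Sq A) (g p))
    (algebraMap A (Sq A) π) (algebraMap A (Sq A) v1) (algebraMap A (Sq A) v2)
    (fun j => algebraMap A (Sq A) (D j)))

include hg hn hRR in
theorem sN2 : 2 * g (n + 1) * (v2 + ∑ j ∈ Ico 1 n, g (j + 2) * D j) +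
    ∑ l ∈ Ico 1 (n + 1), D l * (2 * (g (n + 1) * g (l + 2)) - 2 * (g (l + 1) * g (l + 2))) =
      0 := by
  have h := outN2 (fam hg hn) hRR
  refine ext0 (A := A) (n := n) rfl ?_
  rw [← h]
  congr 1
  simp only [map_add, map_sub, map_mul, map_sum, map_ofNat]

include hg hn hX hRR in
theorem sN1 : -2 * g 3 * (-g 3 * v1 +
      ∑ j ∈ Ico 1 n, g (j + 2) * (g 3 - 2 * g (3 + j)) * D (j + 1)) +
    ∑ l ∈ Ico 1 (n + 1), -g 3 * D l *
      (2 * (g 3 * g (l + 1)) - 2 * (g (l + 1) * g (l + 2))) = 0 := by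
  have h := outN1 (fam hg hn) hRR
  have h1 : X * (-2 * g 3 * (-g 3 * v1 +
      ∑ j ∈ Ico 1 n, g (j + 2) * (g 3 - 2 * g (3 + j)) * D (j + 1)) +
    ∑ l ∈ Ico 1 (n + 1), -g 3 * D l *
      (2 * (g 3 * g (l + 1)) - 2 * (g (l + 1) * g (l + 2)))) = 0 := by
    refine ext0 (A := A) (n := n) rfl ?_
    rw [← h]
    congr 1
    simp only [map_add, map_sub, map_mul, map_sum, map_neg, map_ofNat]
  exact (mul_eq_zero.1 h1).resolve_left hX

include hg hn hRR in
theorem sX1 : (v2 + ∑ j ∈ Ico 1 n, g (j + 2) * D j) +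
      (∑ l ∈ Ico 1 (n + 1), D l * g (l + 2)) +
      X * ∑ i ∈ Ico 0 n, ((-g (i + 3) * v2 +
        ∑ j ∈ Ico 1 n, g (j + 2) * (g (i + 3) - 2 * g (i + 3 + j)) * D j) +
        ∑ l ∈ Ico 1 (n + 1), -g (i + 3) * D l * ((if l ≤ i then 1 else -1) * g (l + 2))) =
      0 := by
  have h := outX1 (fam hg hn) hRR
  refine ext0 (A := A) (n := n) rfl ?_
  rw [← h]
  congr 1
  simp only [map_add, map_sub, map_mul, map_sum, map_neg, map_ofNat, apply_ite, map_one]

theorem ite_map {A B : Type*} [CommRing A] [CommRing B] (f : A →+* B) (a b : A) (P : Prop)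
    [Decidable P] : (f a + if P then f b else 0) = f (a + if P then b else 0) := by
  split_ifs <;> simp

include hg hn hRR in
theorem sLs : X ∣ (v2 + ∑ j ∈ Ico 1 n, g (j + 2) * D j) +
    ∑ l ∈ Ico 1 (n + 1), (D l + if l = n then π else 0) * g (l + 2) := by
  obtain ⟨t, h⟩ := outLs (fam hg hn) hRR
  refine extX (A := A) (n := n) (t := t) rfl ?_
  rw [← h]
  congr 1
  simp only [ite_map]
  simp only [map_add, map_sub, map_mul, map_sum]

include hg hn hRR in
theorem sLu : X ∣ (v1 + ∑ j ∈ Ico 1 n, g (j + 2) * D (j + 1) - π * g (n + 1)) +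
    ∑ l ∈ Ico 1 (n + 1), (D l + if l = n then π else 0) * g (l + 1) := by
  obtain ⟨t, h⟩ := outLu (fam hg hn) hRR
  refine extX (A := A) (n := n) (t := t) rfl ?_
  rw [← h]
  congr 1
  simp only [ite_map]
  simp only [map_add, map_sub, map_mul, map_sum]

include hg hn hRR in
theorem sLy {k : ℕ} (hk : k ∈ Ico 1 (n + 1)) :
    X ∣ (v1 + ∑ j ∈ Ico 1 n, g (j + 2) * D (j + 1) - π * g (n + 1)) * g (k + 2) +
      (v2 + ∑ j ∈ Ico 1 n, g (j + 2) * D j) * g (k + 1) +
    ∑ l ∈ Ico 1 (n + 1), (D l + if l = n then π else 0) * gamk g k l := by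
  obtain ⟨t, h⟩ := outLy (fam hg hn) hRR hk
  refine extX (A := A) (n := n) (t := t) rfl ?_
  rw [← h]
  congr 1
  simp only [ite_map, gam_map]
  simp only [map_add, map_sub, map_mul, map_sum]

end

end Pool.Agent.Helper95K9.HO
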