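import Pool.Agent.Helper95K9.HO.Inner

/-!
# Consequences of the main relation in an abstract ring
-/

set_option autoImplicit false

namespace Pool.Agent.Helper95K9.HO

open Finset

variable {S : Type*} [CommRing S]

/-- The hypotheses on the elements. Here `m = n + 1`. -/
structure Fam (n : ℕ) (s u : S) (y e g : ℕ → S) : Prop where
  hn : 3 ≤ n
  hs : s * s = 0
  hu : u * u = 0
  hy : ∀ i, y i * y i = 0
  he : ∀ i, e i * e i = 0
  hy0 : y 0 = 0
  hym : y (n + 1) = 0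
  hg : ∀ p, p ≤ 2 ∨ n + 1 < p → g p = 0

/-- The inner parts of the rows. -/
def NN (n : ℕ) (ξ : S) (e g : ℕ → S) (i : ℕ) : S :=
  ξ * (∑ l ∈ Ico 1 (n + 1), (g (i + 2 + 1 + l) - g (i + 2 + l)) * e l) +
    (if i = n then e n else 0)

/-- The product of all inner variables. -/
def Yin (n : ℕ) (e : ℕ → S) : S := ∏ i ∈ Ico 1 (n + 1), e i

/-- The main relation. -/
def REL (n : ℕ) (ξ s u : S) (y e g : ℕ → S) (Mo0 : S) (a0 : ℕ → S) (Mo : ℕ → S)
    (a : ℕ → ℕ → S) : Prop :=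
  (∏ i ∈ Ico 0 (n + 1), ((VV g s u (i + 1) - VV g s u i + (y i + y (i + 1))) + NN n ξ e g i)) *
    ((Mo0 + ∑ l ∈ Ico 1 (n + 1), a0 l * e l) * PP e 1 n +
      ∑ j ∈ Ico 1 n, g (j + 2) * ((Mo j + ∑ l ∈ Ico 1 (n + 1), a j l * e l) * QQ e n j)) = 0

variable {n : ℕ} {ξ s u : S} {y e g : ℕ → S} {Mo0 : S} {a0 Mo : ℕ → S} {a : ℕ → ℕ → S}

theorem YNN (F : Fam n s u y e g) (i : ℕ) : Yin n e * NN n ξ e g i = 0 := by
  have h1 := linY F.he (n := n) (fun l => g (i + 2 + 1 + l) - g (i + 2 + l))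
  have h2 := mem_kill (l := n) (a := 1) (b := n + 1) F.he (by have := F.hn; omega) (by omega)
  rw [Yin, NN]
  split_ifs
  · linear_combination ξ * h1 + h2
  · linear_combination ξ * h1

theorem Yprod (F : Fam n s u y e g) :
    Yin n e * (∏ i ∈ Ico 0 (n + 1),
      ((VV g s u (i + 1) - VV g s u i + (y i + y (i + 1))) + NN n ξ e g i)) =
      Yin n e * OU g s u y 0 (n + 1) :=
  lemY _ _ _ _ (fun i _ => YNN F i)

theorem relT (F : Fam n s u y e g) (hR : REL n ξ s u y e g Mo0 a0 Mo a) {l : ℕ} (h1 : 1 ≤ l)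
    (h2 : l ≤ n) :
    Yin n e * ((Mo0 + ∑ j ∈ Ico 1 n, g (j + 2) * ((if l ≤ j then -1 else 1) * Mo j)) *
      OU g s u y 0 (n + 1)) = 0 := by
  have hY := Yprod (ξ := ξ) F
  rw [REL] at hR
  set B := ∏ i ∈ Ico 0 (n + 1),
    ((VV g s u (i + 1) - VV g s u i + (y i + y (i + 1))) + NN n ξ e g i) with hB
  have h3 : e l * ((Mo0 + ∑ l ∈ Ico 1 (n + 1), a0 l * e l) * PP e 1 n +
      ∑ j ∈ Ico 1 n, g (j + 2) * ((Mo j + ∑ l ∈ Ico 1 (n + 1), a j l * e l) * QQ e n j)) =
      Yin n e * (Mo0 + ∑ j ∈ Ico 1 n, g (j + 2) * ((if l ≤ j then -1 else 1) * Mo j)) := by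
    rw [mul_add, mul_add, mul_sum, mul_sum]
    congr 1
    · rw [Yin]
      linear_combination (Mo0 + ∑ l ∈ Ico 1 (n + 1), a0 l * e l) * eP F.he h1 h2 +
        linY F.he (n := n) a0
    · apply sum_congr rfl
      intro j hj
      rw [mem_Ico] at hj
      have h4 := linY F.he (n := n) (a j)
      rw [Yin]
      split_ifs with hlj
      · have h5 := eQ_le F.he h1 hlj hj.2
        linear_combination g (j + 2) * (Mo j + ∑ l ∈ Ico 1 (n + 1), a j l * e l) * h5 -
          g (j + 2) * h4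
      · have h5 := eQ_gt F.he hj.1 (by omega) h2
        linear_combination g (j + 2) * (Mo j + ∑ l ∈ Ico 1 (n + 1), a j l * e l) * h5 +
          g (j + 2) * h4
  linear_combination e l * hR - B * h3 - (Mo0 + ∑ j ∈ Ico 1 n,
    g (j + 2) * ((if l ≤ j then -1 else 1) * Mo j)) * hY

theorem relTj (F : Fam n s u y e g) (hR : REL n ξ s u y e g Mo0 a0 Mo a) {j : ℕ} (h1 : 1 ≤ j)
    (h2 : j < n) :
    Yin n e * (2 * g (j + 2) * (Mo j * OU g s u y 0 (n + 1))) = 0 := by
  have h3 := relT F hR h1 h2.le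
  have h4 := relT F hR (l := j + 1) (by omega) (by omega)
  have h5 : ∑ i ∈ Ico 1 n, g (i + 2) * ((if j + 1 ≤ i then -1 else 1) * Mo i) -
      ∑ i ∈ Ico 1 n, g (i + 2) * ((if j ≤ i then -1 else 1) * Mo i) =
      2 * g (j + 2) * Mo j := by
    rw [← sum_sub_distrib, sum_eq_single_of_mem j (mem_Ico.2 ⟨h1, h2⟩)]
    · rw [if_neg (by omega), if_pos le_rfl]
      ring
    · intro i _ hij
      by_cases h : j ≤ i
      · rw [if_pos h, if_pos (by omega)]
        ring
      · rw [if_neg h, if_neg (by omega)]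
        ring
  linear_combination h4 - h3 - Yin n e * OU g s u y 0 (n + 1) * h5

theorem relT0 (F : Fam n s u y e g) (hR : REL n ξ s u y e g Mo0 a0 Mo a) :
    Yin n e * (2 * (Mo0 * OU g s u y 0 (n + 1))) = 0 := by
  have hn := F.hn
  have h3 := relT F hR (l := 1) le_rfl (by omega)
  have h5 : Yin n e * ((2 * ∑ j ∈ Ico 1 n, g (j + 2) * ((if 1 ≤ j then -1 else 1) * Mo j)) *
      OU g s u y 0 (n + 1)) = 0 := by
    rw [mul_sum, sum_mul, mul_sum]
    apply sum_eq_zero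
    intro j hj
    rw [mem_Ico] at hj
    rw [if_pos hj.1]
    linear_combination -relTj F hR hj.1 hj.2
  linear_combination 2 * h3 - h5

/-- The relation not multiplied by inner variables. -/
theorem relR (F : Fam n s u y e g) (hR : REL n ξ s u y e g Mo0 a0 Mo a)
    (h0 : Mo0 * OU g s u y 0 (n + 1) = 0)
    (hj : ∀ j ∈ Ico 1 n, Mo j * OU g s u y 0 (n + 1) = 0) :
    Yin n e * (((∑ l ∈ Ico 1 (n + 1), a0 l) + ∑ j ∈ Ico 1 n, g (j + 2) * sg (a j) n j) *
        OU g s u y 0 (n + 1) +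
      (Mo0 + ∑ j ∈ Ico 1 n, g (j + 2) * Mo j) * OU g s u y 0 n +
      ξ * ∑ i ∈ Ico 0 n, (-g (i + 3) * Mo0 +
        ∑ j ∈ Ico 1 n, g (j + 2) * ((g (i + 3) - 2 * g (i + 3 + j)) * Mo j)) *
          (OU g s u y 0 i * OU g s u y (i + 1) (n + 1))) = 0 := by
  have hn := F.hn
  have hY := Yprod (ξ := ξ) F
  rw [REL] at hR
  set B := ∏ i ∈ Ico 0 (n + 1),
    ((VV g s u (i + 1) - VV g s u i + (y i + y (i + 1))) + NN n ξ e g i) with hB
  -- the two expansions
  have hP : PP e 1 n * B = PP e 1 n * OU g s u y 0 (n + 1) + Yin n e *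
      ∑ i ∈ Ico 0 (n + 1), (-ξ * g (i + 3) + (if i = n then 1 else 0)) *
        (OU g s u y 0 i * OU g s u y (i + 1) (n + 1)) := by
    rw [hB, lemE (Ico 0 (n + 1)) _ _ (fun i => -ξ * g (i + 3) + (if i = n then 1 else 0))
      (PP e 1 n) (Yin n e) _ (fun i _ => YNN F i)]
    · congr 1
      congr 1
      apply sum_congr rfl
      intro i hi
      rw [mem_Ico] at hi
      rw [OU_erase g s u y hi.2]
    · intro i hi
      have h1 := linP F.he (n := n) (fun l => g (i + 2 + 1 + l) - g (i + 2 + l))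
      rw [tele g (i + 2) (by omega : 1 ≤ n + 1), F.hg (i + 2 + (n + 1)) (by omega)] at h1
      have h2 := eP F.he (a := 1) (l := n) (b := n) (by omega) le_rfl
      rw [NN, Yin]
      split_ifs
      · linear_combination ξ * h1 + h2
      · linear_combination ξ * h1
  have hQ : ∀ j ∈ Ico 1 n, QQ e n j * B = QQ e n j * OU g s u y 0 (n + 1) + Yin n e *
      ∑ i ∈ Ico 0 (n + 1), (ξ * (g (i + 3) - 2 * g (i + 3 + j)) + (if i = n then 1 else 0)) *
        (OU g s u y 0 i * OU g s u y (i + 1) (n + 1)) := by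
    intro j hj
    rw [mem_Ico] at hj
    rw [hB, lemE (Ico 0 (n + 1)) _ _ (fun i => ξ * (g (i + 3) - 2 * g (i + 3 + j)) +
      (if i = n then 1 else 0)) (QQ e n j) (Yin n e) _ (fun i _ => YNN F i)]
    · congr 1
      congr 1
      apply sum_congr rfl
      intro i hi
      rw [mem_Ico] at hi
      rw [OU_erase g s u y hi.2]
    · intro i hi
      have h1 := linQ F.he hj.1 hj.2 (fun l => g (i + 2 + 1 + l) - g (i + 2 + l))
      rw [sg_tele g (i + 2) n j hj.2.le, F.hg (i + 2 + (n + 1)) (by omega)] at h1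
      have h2 := eQ_gt F.he (n := n) (l := n) hj.1 hj.2 le_rfl
      have e1 : i + 2 + (j + 1) = i + 3 + j := by ring
      rw [e1] at h1
      rw [NN, Yin]
      split_ifs
      · linear_combination ξ * h1 + h2
      · linear_combination ξ * h1
  -- the inner parts
  have hA0 : (∑ l ∈ Ico 1 (n + 1), a0 l * e l) * PP e 1 n * B =
      (∑ l ∈ Ico 1 (n + 1), a0 l) * (Yin n e * OU g s u y 0 (n + 1)) := by
    have h1 := linP F.he (n := n) a0
    rw [Yin] at hY ⊢
    linear_combination B * h1 + (∑ l ∈ Ico 1 (n + 1), a0 l) * hY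
  have hAj : ∀ j ∈ Ico 1 n, (∑ l ∈ Ico 1 (n + 1), a j l * e l) * QQ e n j * B =
      sg (a j) n j * (Yin n e * OU g s u y 0 (n + 1)) := by
    intro j hj
    rw [mem_Ico] at hj
    have h1 := linQ F.he hj.1 hj.2 (a j)
    rw [Yin] at hY ⊢
    linear_combination B * h1 + sg (a j) n j * hY
  -- the sums over `j`
  have hS : B * ∑ j ∈ Ico 1 n, g (j + 2) *
      ((Mo j + ∑ l ∈ Ico 1 (n + 1), a j l * e l) * QQ e n j) =
      Yin n e * ((∑ j ∈ Ico 1 n, g (j + 2) * sg (a j) n j) * OU g s u y 0 (n + 1) +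
        ∑ j ∈ Ico 1 n, g (j + 2) * Mo j * ∑ i ∈ Ico 0 (n + 1),
          (ξ * (g (i + 3) - 2 * g (i + 3 + j)) + (if i = n then 1 else 0)) *
        (OU g s u y 0 i * OU g s u y (i + 1) (n + 1))) := by
    rw [sum_mul, ← sum_add_distrib, mul_sum, mul_sum]
    apply sum_congr rfl
    intro j hjj
    linear_combination g (j + 2) * Mo j * hQ j hjj + g (j + 2) * hAj j hjj +
      g (j + 2) * QQ e n j * hj j hjj
  -- rearrange the double sum
  have hD : ∑ j ∈ Ico 1 n, g (j + 2) * Mo j * ∑ i ∈ Ico 0 (n + 1),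
      (ξ * (g (i + 3) - 2 * g (i + 3 + j)) + (if i = n then 1 else 0)) *
        (OU g s u y 0 i * OU g s u y (i + 1) (n + 1)) =
      ξ * (∑ i ∈ Ico 0 n, (∑ j ∈ Ico 1 n, g (j + 2) * ((g (i + 3) - 2 * g (i + 3 + j)) * Mo j)) *
        (OU g s u y 0 i * OU g s u y (i + 1) (n + 1))) +
      (∑ j ∈ Ico 1 n, g (j + 2) * Mo j) * OU g s u y 0 n := by
    have e1 : ∀ j ∈ Ico 1 n, g (j + 2) * Mo j * ∑ i ∈ Ico 0 (n + 1),
        (ξ * (g (i + 3) - 2 * g (i + 3 + j)) + (if i = n then 1 else 0)) *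
        (OU g s u y 0 i * OU g s u y (i + 1) (n + 1)) =
        (∑ i ∈ Ico 0 n, ξ * (g (j + 2) * ((g (i + 3) - 2 * g (i + 3 + j)) * Mo j) *
          (OU g s u y 0 i * OU g s u y (i + 1) (n + 1)))) +
        g (j + 2) * Mo j * OU g s u y 0 n := by
      intro j hj
      rw [sum_Ico_succ_top (Nat.zero_le _), mul_add, mul_sum]
      congr 1
      · apply sum_congr rfl
        intro i hi
        rw [mem_Ico] at hi
        rw [if_neg (by omega)]
        ring
      · rw [if_pos rfl, F.hg (n + 3) (by omega), F.hg (n + 3 + j) (by omega)]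
        have : OU g s u y (n + 1) (n + 1) = 1 := OO_self _ _ _
        rw [this]
        ring
    rw [sum_congr rfl e1, sum_add_distrib, sum_comm, sum_mul, mul_sum]
    congr 1
    apply sum_congr rfl
    intro i _
    rw [sum_mul, mul_sum]
  have hD0 : ∑ i ∈ Ico 0 (n + 1), (-ξ * g (i + 3) + (if i = n then 1 else 0)) *
        (OU g s u y 0 i * OU g s u y (i + 1) (n + 1)) =
      ξ * (∑ i ∈ Ico 0 n, -g (i + 3) * (OU g s u y 0 i * OU g s u y (i + 1) (n + 1))) +
        OU g s u y 0 n := by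
    rw [sum_Ico_succ_top (Nat.zero_le _), mul_sum]
    congr 1
    · apply sum_congr rfl
      intro i hi
      rw [mem_Ico] at hi
      rw [if_neg (by omega)]
      ring
    · rw [if_pos rfl, F.hg (n + 3) (by omega)]
      have : OU g s u y (n + 1) (n + 1) = 1 := OO_self _ _ _
      rw [this]
      ring
  have hE : ∑ i ∈ Ico 0 n, (-g (i + 3) * Mo0 +
        ∑ j ∈ Ico 1 n, g (j + 2) * ((g (i + 3) - 2 * g (i + 3 + j)) * Mo j)) *
          (OU g s u y 0 i * OU g s u y (i + 1) (n + 1)) =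
      Mo0 * (∑ i ∈ Ico 0 n, -g (i + 3) * (OU g s u y 0 i * OU g s u y (i + 1) (n + 1))) +
      ∑ i ∈ Ico 0 n, (∑ j ∈ Ico 1 n, g (j + 2) * ((g (i + 3) - 2 * g (i + 3 + j)) * Mo j)) *
        (OU g s u y 0 i * OU g s u y (i + 1) (n + 1)) := by
    rw [mul_sum, ← sum_add_distrib]
    apply sum_congr rfl
    intro i _
    ring
  rw [hE]
  rw [hD] at hS
  rw [hD0] at hP
  linear_combination hR - hS - Mo0 * hP - hA0 - PP e 1 n * h0

end Pool.Agent.Helper95K9.HO
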