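import Mathlib

/-!
# Products of neighbouring sums of square zero elements
-/

set_option autoImplicit false

namespace Pool.Agent.Helper95K9.HO

open Finset

variable {S : Type*} [CommRing S]

/-- `∏ (v i + y i + y (i+1))` over `a ≤ i < b`. -/
def OO (v y : ℕ → S) (a b : ℕ) : S := ∏ i ∈ Ico a b, (v i + (y i + y (i + 1)))

theorem OO_self (v y : ℕ → S) (a : ℕ) : OO v y a a = 1 := by simp [OO]

theorem OO_succ (v y : ℕ → S) {a b : ℕ} (h : a ≤ b) :
    OO v y a (b + 1) = OO v y a b * (v b + (y b + y (b + 1))) := by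
  rw [OO, prod_Ico_succ_top h]
  rfl

theorem OO_split (v y : ℕ → S) {a c b : ℕ} (h : a ≤ c) (h' : c ≤ b) :
    OO v y a b = OO v y a c * OO v y c b := by
  rw [OO, OO, OO, prod_Ico_consecutive _ h h']

theorem OO_bot (v y : ℕ → S) {a b : ℕ} (h : a < b) :
    OO v y a b = (v a + (y a + y (a + 1))) * OO v y (a + 1) b := by
  rw [OO, prod_eq_prod_Ico_succ_bot h]
  rfl

/-- Open at the right end. -/
theorem openR {v y : ℕ → S} (hy : ∀ i, y i * y i = 0) {z : S} {a b : ℕ} (hab : a ≤ b)
    (ha : z * y a = 0) (hv : ∀ i, z * v i = 0) :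
    z * OO v y a b = z * ∏ i ∈ Ico (a + 1) (b + 1), y i := by
  induction b, hab using Nat.le_induction with
  | base => simp [OO_self]
  | succ b hb ih =>
    rw [OO_succ v y hb, prod_Ico_succ_top (Nat.succ_le_succ hb)]
    have h2 : z * (∏ i ∈ Ico (a + 1) (b + 1), y i) * y b = 0 := by
      rcases Nat.eq_or_lt_of_le hb with h | h
      · subst h
        simp [ha]
      · rw [prod_Ico_succ_top h]
        linear_combination (z * ∏ i ∈ Ico (a + 1) b, y i) * hy b
    linear_combination (v b + (y b + y (b + 1))) * ih +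
      (∏ i ∈ Ico (a + 1) (b + 1), y i) * hv b + h2

/-- Open at the left end. -/
theorem openL {v y : ℕ → S} (hy : ∀ i, y i * y i = 0) {a b : ℕ} (hab : a ≤ b) :
    ∀ {z : S}, z * y b = 0 → (∀ i, z * v i = 0) →
    z * OO v y a b = z * ∏ i ∈ Ico a b, y i := by
  induction b, hab using Nat.le_induction with
  | base =>
    intro z _ _
    simp [OO_self]
  | succ b hb ih =>
    intro z hz hv
    rw [OO_succ v y hb, prod_Ico_succ_top hb]
    have h1 := ih (z := z * y b) (by linear_combination z * hy b) (fun i => by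
      linear_combination y b * hv i)
    linear_combination h1 + (OO v y a b) * (hv b + hz)

/-- Closed at both ends. -/
theorem closed {V y : ℕ → S} (hy : ∀ i, y i * y i = 0) {a b : ℕ} (hab : a < b) :
    ∀ {z : S}, z * y a = 0 → z * y b = 0 → (∀ i j, z * (V i * V j) = 0) →
    z * OO (fun i => V (i + 1) - V i) y a b =
      z * (V b - V a) * ∏ i ∈ Ico (a + 1) b, y i := by
  have hab' : a + 1 ≤ b := hab
  induction b, hab' using Nat.le_induction with
  | base =>
    intro z h1 h2 _
    rw [OO_succ _ _ le_rfl, OO_self]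
    simp only [Ico_self, prod_empty]
    linear_combination h1 + h2
  | succ b hb ih =>
    intro z h1 h2 hV
    have hb' : a < b := hb
    rw [OO_succ _ _ hb'.le, prod_Ico_succ_top hb]
    have h3 := ih hb' (z := z * y b) (by linear_combination y b * h1)
      (by linear_combination z * hy b) (fun i j => by linear_combination y b * hV i j)
    have h4 := openR (v := fun i => V (i + 1) - V i) hy (z := z * (V (b + 1) - V b)) hb'.le
      (by linear_combination (V (b + 1) - V b) * h1)
      (fun i => by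
        linear_combination hV (b + 1) (i + 1) - hV (b + 1) i - hV b (i + 1) + hV b i)
    rw [prod_Ico_succ_top hb] at h4
    linear_combination h3 + h4 + (OO (fun i => V (i + 1) - V i) y a b) * h2

/-- A zero in the middle. -/
theorem split {V y : ℕ → S} (hy : ∀ i, y i * y i = 0) {a c b : ℕ} (hac : a < c) (hcb : c < b)
    (hV : ∀ i j k, V i * V j * V k = 0) {z : S} (ha : z * y a = 0) (hc : z * y c = 0)
    (hb : z * y b = 0) :
    z * OO (fun i => V (i + 1) - V i) y a b =
      z * ((V c - V a) * (V b - V c)) * ((∏ i ∈ Ico (a + 1) c, y i) *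
        ∏ i ∈ Ico (c + 1) b, y i) := by
  rw [OO_split _ _ hac.le hcb.le]
  set O := OO (fun i => V (i + 1) - V i) y a c with hO
  have h1 : ∀ i j, z * O * (V i * V j) = 0 := by
    intro i j
    have := closed (V := V) hy hac (z := z * (V i * V j))
      (by linear_combination (V i * V j) * ha) (by linear_combination (V i * V j) * hc)
      (fun i' j' => by
        linear_combination z * V j' * hV i j i')
    rw [← hO] at this
    linear_combination this + z * (∏ i ∈ Ico (a + 1) c, y i) * (hV i j c - hV i j a)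
  have h2 := closed (V := V) hy hcb (z := z * O) (by linear_combination O * hc)
    (by linear_combination O * hb) h1
  have h3 := closed (V := V) hy hac (z := z * (V b - V c) * ∏ i ∈ Ico (c + 1) b, y i)
    (by linear_combination (V b - V c) * (∏ i ∈ Ico (c + 1) b, y i) * ha)
    (by linear_combination (V b - V c) * (∏ i ∈ Ico (c + 1) b, y i) * hc)
    (fun i j => by
      linear_combination z * (∏ i ∈ Ico (c + 1) b, y i) * (hV b i j - hV c i j))
  rw [← hO] at h3
  linear_combination h2 + h3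

theorem prod_split (y : ℕ → S) {a j b : ℕ} (h1 : a ≤ j) (h2 : j < b) :
    ∏ i ∈ Ico a b, y i = (∏ i ∈ Ico a j, y i) * (y j * ∏ i ∈ Ico (j + 1) b, y i) := by
  rw [← prod_eq_prod_Ico_succ_bot h2, prod_Ico_consecutive _ h1 h2.le]

/-! ## The outer part -/

section outer

variable {m : ℕ} {s u : S} {y g : ℕ → S}

/-- The linear forms `V`. -/
def VV (g : ℕ → S) (s u : S) (i : ℕ) : S := g (i + 1) * s + g (i + 2) * u

/-- The products of outer parts. -/
def OU (g : ℕ → S) (s u : S) (y : ℕ → S) (a b : ℕ) : S :=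
  OO (fun i => VV g s u (i + 1) - VV g s u i) y a b

variable (hs : s * s = 0) (hu : u * u = 0)

include hs hu in
theorem VV_mul (i j : ℕ) : VV g s u i * VV g s u j =
    (g (i + 1) * g (j + 2) + g (i + 2) * g (j + 1)) * (s * u) := by
  simp only [VV]
  linear_combination g (i + 1) * g (j + 1) * hs + g (i + 2) * g (j + 2) * hu

include hs hu in
theorem VV3 (i j k : ℕ) : VV g s u i * VV g s u j * VV g s u k = 0 := by
  rw [VV_mul hs hu]
  simp only [VV]
  linear_combination (g (i + 1) * g (j + 2) + g (i + 2) * g (j + 1)) *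
    (g (k + 1) * u * hs + g (k + 2) * s * hu)

include hs in
theorem s_VV (j : ℕ) : s * VV g s u j = g (j + 2) * (s * u) := by
  simp only [VV]
  linear_combination g (j + 1) * hs

include hu in
theorem u_VV (j : ℕ) : u * VV g s u j = g (j + 1) * (s * u) := by
  simp only [VV]
  linear_combination g (j + 2) * hu

include hs hu in
theorem su_VV (j : ℕ) : s * u * VV g s u j = 0 := by
  simp only [VV]
  linear_combination g (j + 1) * u * hs + g (j + 2) * s * hu

variable (hy : ∀ i, y i * y i = 0)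

include hs hu hy in
theorem ocl {a b : ℕ} (hab : a < b) {z : S} (ha : z * y a = 0) (hb : z * y b = 0)
    (hz : z * (s * u) = 0) :
    z * OU g s u y a b = z * (VV g s u b - VV g s u a) * ∏ i ∈ Ico (a + 1) b, y i :=
  closed hy hab ha hb (fun i j => by
    rw [VV_mul hs hu]
    linear_combination (g (i + 1) * g (j + 2) + g (i + 2) * g (j + 1)) * hz)

include hy in
theorem oR {a b : ℕ} (hab : a ≤ b) {z : S} (ha : z * y a = 0) (h1 : z * s = 0)
    (h2 : z * u = 0) : z * OU g s u y a b = z * ∏ i ∈ Ico (a + 1) (b + 1), y i :=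
  openR hy hab ha (fun i => by
    simp only [VV]
    linear_combination (g (i + 1 + 1) - g (i + 1)) * h1 + (g (i + 1 + 2) - g (i + 2)) * h2)

include hy in
theorem oL {a b : ℕ} (hab : a ≤ b) {z : S} (hb : z * y b = 0) (h1 : z * s = 0)
    (h2 : z * u = 0) : z * OU g s u y a b = z * ∏ i ∈ Ico a b, y i :=
  openL hy hab hb (fun i => by
    simp only [VV]
    linear_combination (g (i + 1 + 1) - g (i + 1)) * h1 + (g (i + 1 + 2) - g (i + 2)) * h2)

include hs hu hy in
theorem osp {a c b : ℕ} (hac : a < c) (hcb : c < b) {z : S} (ha : z * y a = 0)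
    (hc : z * y c = 0) (hb : z * y b = 0) :
    z * OU g s u y a b = z * ((VV g s u c - VV g s u a) * (VV g s u b - VV g s u c)) *
      ((∏ i ∈ Ico (a + 1) c, y i) * ∏ i ∈ Ico (c + 1) b, y i) :=
  split hy hac hcb (VV3 hs hu) ha hc hb

theorem OU_split {a c b : ℕ} (h : a ≤ c) (h' : c ≤ b) :
    OU g s u y a b = OU g s u y a c * OU g s u y c b := OO_split _ _ h h'

variable (hy0 : y 0 = 0) (hym : y m = 0)
  (hg1 : g 1 = 0) (hg2 : g 2 = 0) (hgm1 : g (m + 1) = 0) (hgm2 : g (m + 2) = 0)

include hg1 hg2 in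
theorem VV0 : VV g s u 0 = 0 := by simp [VV, hg1, hg2]

include hgm1 hgm2 in
theorem VVm : VV g s u m = 0 := by simp [VV, hgm1, hgm2]

/-- The full outer monomial. -/
def Om (s u : S) (y : ℕ → S) (m : ℕ) : S := s * u * ∏ i ∈ Ico 1 m, y i

include hs hu hy hy0 hym hg1 hg2 hgm1 hgm2 in
theorem E1 (hm : 0 < m) : s * OU g s u y 0 m = 0 := by
  rw [ocl hs hu hy hm (by rw [hy0, mul_zero]) (by rw [hym, mul_zero])
    (by linear_combination u * hs), VV0 hg1 hg2, VVm hgm1 hgm2]
  ring

include hs hu hy hy0 hym hg1 hg2 hgm1 hgm2 in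
theorem E2 (hm : 0 < m) : u * OU g s u y 0 m = 0 := by
  rw [ocl hs hu hy hm (by rw [hy0, mul_zero]) (by rw [hym, mul_zero])
    (by linear_combination s * hu), VV0 hg1 hg2, VVm hgm1 hgm2]
  ring

include hs hu hy hy0 hym hg1 hg2 hgm1 hgm2 in
theorem E3 {j : ℕ} (h1 : 1 ≤ j) (h2 : j < m) :
    y j * OU g s u y 0 m = -2 * (g (j + 1) * g (j + 2)) * Om s u y m := by
  rw [osp hs hu hy (Nat.lt_of_lt_of_le Nat.zero_lt_one h1) h2 (by rw [hy0, mul_zero]) (hy j)
    (by rw [hym, mul_zero]), VV0 hg1 hg2, VVm hgm1 hgm2, Om, prod_split y h1 h2]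
  linear_combination (-(y j) * ((∏ i ∈ Ico (0 + 1) j, y i) * ∏ i ∈ Ico (j + 1) m, y i)) *
    VV_mul (g := g) hs hu j j

/-- `s u` times an open product. -/
theorem E6a (hs : s * s = 0) (hu : u * u = 0) (hy : ∀ i, y i * y i = 0) (hy0 : y 0 = 0)
    (hm : 0 < m) : s * u * OU g s u y 0 (m - 1) = Om s u y m := by
  rw [oR hy (Nat.zero_le _) (by rw [hy0, mul_zero]) (by linear_combination u * hs)
    (by linear_combination s * hu), Om]
  have : m - 1 + 1 = m := by omega
  rw [this]

/-- An element `z` with `z V = c s u` times `y j`. -/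
theorem E67 (hs : s * s = 0) (hu : u * u = 0) (hy : ∀ i, y i * y i = 0) (hy0 : y 0 = 0)
    (hg1 : g 1 = 0) (hg2 : g 2 = 0) {j : ℕ} (h1 : 1 ≤ j) (h2 : j < m) {z c : S}
    (hz : z * (s * u) = 0) (hc : z * VV g s u j = c * (s * u)) :
    z * y j * OU g s u y 0 (m - 1) = c * Om s u y m := by
  rw [OU_split (c := j) (Nat.zero_le _) (by omega)]
  have h3 := ocl (g := g) hs hu hy (a := 0) (b := j) (by omega) (z := z * y j)
    (by rw [hy0, mul_zero]) (by linear_combination z * hy j) (by linear_combination y j * hz)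
  have h4 := oR (g := g) (s := s) (u := u) hy (a := j) (b := m - 1) (by omega)
    (z := c * (s * u) * y j * ∏ i ∈ Ico (0 + 1) j, y i)
    (by linear_combination (c * (s * u) * ∏ i ∈ Ico (0 + 1) j, y i) * hy j)
    (by linear_combination (c * u * y j * ∏ i ∈ Ico (0 + 1) j, y i) * hs)
    (by linear_combination (c * s * y j * ∏ i ∈ Ico (0 + 1) j, y i) * hu)
  rw [VV0 hg1 hg2] at h3
  rw [Om, prod_split y h1 h2]
  have : m - 1 + 1 = m := by omega
  rw [this] at h4
  linear_combination (OU g s u y j (m - 1)) * h3 +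
    (y j * (∏ i ∈ Ico (0 + 1) j, y i) * OU g s u y j (m - 1)) * hc + h4

include hs hu hy hy0 hg1 hg2 in
theorem E6 {j : ℕ} (h1 : 1 ≤ j) (h2 : j < m) :
    s * y j * OU g s u y 0 (m - 1) = g (j + 2) * Om s u y m :=
  E67 hs hu hy hy0 hg1 hg2 h1 h2 (by linear_combination u * hs) (s_VV hs j)

include hs hu hy hy0 hg1 hg2 in
theorem E7 {j : ℕ} (h1 : 1 ≤ j) (h2 : j < m) :
    u * y j * OU g s u y 0 (m - 1) = g (j + 1) * Om s u y m :=
  E67 hs hu hy hy0 hg1 hg2 h1 h2 (by linear_combination s * hu) (u_VV hu j)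

include hs hu hy hy0 hg1 hg2 in
theorem E8 {l j : ℕ} (h1 : 1 ≤ l) (hlj : l < j) (h2 : j < m) :
    y l * y j * OU g s u y 0 (m - 1) =
      (g (l + 1) * g (j + 2) + g (l + 2) * g (j + 1) - 2 * (g (l + 1) * g (l + 2))) *
        Om s u y m := by
  rw [OU_split (c := j) (Nat.zero_le _) (by omega)]
  have h3 := osp (g := g) hs hu hy (a := 0) (c := l) (b := j) (by omega) hlj (z := y l * y j)
    (by rw [hy0, mul_zero]) (by linear_combination y j * hy l) (by linear_combination y l * hy j)
  rw [VV0 hg1 hg2] at h3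
  have h5 : (VV g s u l - 0) * (VV g s u j - VV g s u l) =
      (g (l + 1) * g (j + 2) + g (l + 2) * g (j + 1) - 2 * (g (l + 1) * g (l + 2))) *
        (s * u) := by
    linear_combination VV_mul (g := g) hs hu l j - VV_mul (g := g) hs hu l l
  rw [h5] at h3
  set cc := g (l + 1) * g (j + 2) + g (l + 2) * g (j + 1) - 2 * (g (l + 1) * g (l + 2))
  have h4 := oR (g := g) (s := s) (u := u) hy (a := j) (b := m - 1) (by omega)
    (z := y l * y j * (cc * (s * u)) * ((∏ i ∈ Ico (0 + 1) l, y i) * ∏ i ∈ Ico (l + 1) j, y i))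
    (by linear_combination (y l * (cc * (s * u)) *
      ((∏ i ∈ Ico (0 + 1) l, y i) * ∏ i ∈ Ico (l + 1) j, y i)) * hy j)
    (by linear_combination (y l * y j * cc * u *
      ((∏ i ∈ Ico (0 + 1) l, y i) * ∏ i ∈ Ico (l + 1) j, y i)) * hs)
    (by linear_combination (y l * y j * cc * s *
      ((∏ i ∈ Ico (0 + 1) l, y i) * ∏ i ∈ Ico (l + 1) j, y i)) * hu)
  have : m - 1 + 1 = m := by omega
  rw [this] at h4
  rw [Om, prod_split y (by omega : 1 ≤ j) h2, prod_split y h1 hlj]
  linear_combination (OU g s u y j (m - 1)) * h3 + h4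

include hs hu hy hy0 hym in
/-- One factor left out. -/
theorem E9a {i : ℕ} (h : i < m) :
    s * u * (OU g s u y 0 i * OU g s u y (i + 1) m) = Om s u y m := by
  have h1 := oR (g := g) (s := s) (u := u) hy (a := 0) (b := i) (by omega) (z := s * u)
    (by rw [hy0, mul_zero]) (by linear_combination u * hs) (by linear_combination s * hu)
  have h2 := oL (g := g) (s := s) (u := u) hy (a := i + 1) (b := m) (by omega)
    (z := s * u * ∏ i ∈ Ico (0 + 1) (i + 1), y i)
    (by rw [hym, mul_zero]) (by linear_combination (u * ∏ i ∈ Ico (0 + 1) (i + 1), y i) * hs)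
    (by linear_combination (s * ∏ i ∈ Ico (0 + 1) (i + 1), y i) * hu)
  have h3 : ∏ i ∈ Ico 1 m, y i = (∏ i ∈ Ico (0 + 1) (i + 1), y i) *
      ∏ i ∈ Ico (i + 1) m, y i := by
    rw [prod_Ico_consecutive _ (by omega) (by omega)]
  rw [Om, h3]
  linear_combination (OU g s u y (i + 1) m) * h1 + h2

include hs hu hy hy0 hym hg1 hg2 in
theorem E9b {i j : ℕ} (hi : i < m) (h1 : 1 ≤ j) (h2 : j < m) (hij : j ≤ i) :
    s * y j * (OU g s u y 0 i * OU g s u y (i + 1) m) = g (j + 2) * Om s u y m := by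
  rw [OU_split (a := 0) (c := j) (b := i) (Nat.zero_le _) hij]
  have h3 := ocl (g := g) hs hu hy (a := 0) (b := j) (by omega) (z := s * y j)
    (by rw [hy0, mul_zero]) (by linear_combination s * hy j)
    (by linear_combination u * y j * hs)
  rw [VV0 hg1 hg2] at h3
  have h3' : s * y j * OU g s u y 0 j =
      g (j + 2) * (s * u) * y j * ∏ i ∈ Ico (0 + 1) j, y i := by
    linear_combination h3 + (y j * ∏ i ∈ Ico (0 + 1) j, y i) * s_VV (g := g) (u := u) hs j
  have h4 := oR (g := g) (s := s) (u := u) hy (a := j) (b := i) hij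
    (z := g (j + 2) * (s * u) * y j * ∏ i ∈ Ico (0 + 1) j, y i)
    (by linear_combination (g (j + 2) * (s * u) * ∏ i ∈ Ico (0 + 1) j, y i) * hy j)
    (by linear_combination (g (j + 2) * u * y j * ∏ i ∈ Ico (0 + 1) j, y i) * hs)
    (by linear_combination (g (j + 2) * s * y j * ∏ i ∈ Ico (0 + 1) j, y i) * hu)
  have h5 := oL (g := g) (s := s) (u := u) hy (a := i + 1) (b := m) (by omega)
    (z := g (j + 2) * (s * u) * y j * (∏ i ∈ Ico (0 + 1) j, y i) *
      ∏ i ∈ Ico (j + 1) (i + 1), y i)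
    (by rw [hym, mul_zero])
    (by linear_combination (g (j + 2) * u * y j * (∏ i ∈ Ico (0 + 1) j, y i) *
      ∏ i ∈ Ico (j + 1) (i + 1), y i) * hs)
    (by linear_combination (g (j + 2) * s * y j * (∏ i ∈ Ico (0 + 1) j, y i) *
      ∏ i ∈ Ico (j + 1) (i + 1), y i) * hu)
  have h6 : ∏ i ∈ Ico (j + 1) m, y i = (∏ i ∈ Ico (j + 1) (i + 1), y i) *
      ∏ i ∈ Ico (i + 1) m, y i := by
    rw [prod_Ico_consecutive _ (by omega) (by omega)]
  rw [Om, prod_split y h1 h2, h6]
  linear_combination (OU g s u y j i * OU g s u y (i + 1) m) * h3' +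
    (OU g s u y (i + 1) m) * h4 + h5

include hs hu hy hy0 hym hgm1 hgm2 in
theorem E9c {i j : ℕ} (h2 : j < m) (hij : i < j) :
    s * y j * (OU g s u y 0 i * OU g s u y (i + 1) m) = -g (j + 2) * Om s u y m := by
  rw [OU_split (a := i + 1) (c := j) (b := m) hij h2.le]
  have h3 := ocl (g := g) hs hu hy (a := j) (b := m) h2 (z := s * y j)
    (by linear_combination s * hy j) (by rw [hym, mul_zero])
    (by linear_combination u * y j * hs)
  rw [VVm hgm1 hgm2] at h3
  have h3' : s * y j * OU g s u y j m =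
      -g (j + 2) * (s * u) * y j * ∏ i ∈ Ico (j + 1) m, y i := by
    linear_combination h3 - (y j * ∏ i ∈ Ico (j + 1) m, y i) * s_VV (g := g) (u := u) hs j
  have h4 := oL (g := g) (s := s) (u := u) hy (a := i + 1) (b := j) hij
    (z := -g (j + 2) * (s * u) * y j * ∏ i ∈ Ico (j + 1) m, y i)
    (by linear_combination (-g (j + 2) * (s * u) * ∏ i ∈ Ico (j + 1) m, y i) * hy j)
    (by linear_combination (-g (j + 2) * u * y j * ∏ i ∈ Ico (j + 1) m, y i) * hs)
    (by linear_combination (-g (j + 2) * s * y j * ∏ i ∈ Ico (j + 1) m, y i) * hu)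
  have h5 := oR (g := g) (s := s) (u := u) hy (a := 0) (b := i) (by omega)
    (z := -g (j + 2) * (s * u) * y j * (∏ i ∈ Ico (j + 1) m, y i) *
      ∏ i ∈ Ico (i + 1) j, y i)
    (by rw [hy0, mul_zero])
    (by linear_combination (-g (j + 2) * u * y j * (∏ i ∈ Ico (j + 1) m, y i) *
      ∏ i ∈ Ico (i + 1) j, y i) * hs)
    (by linear_combination (-g (j + 2) * s * y j * (∏ i ∈ Ico (j + 1) m, y i) *
      ∏ i ∈ Ico (i + 1) j, y i) * hu)
  have h6 : ∏ i ∈ Ico 1 j, y i = (∏ i ∈ Ico (0 + 1) (i + 1), y i) *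
      ∏ i ∈ Ico (i + 1) j, y i := by
    rw [prod_Ico_consecutive _ (by omega) (by omega)]
  rw [Om, prod_split y (by omega : 1 ≤ j) h2, h6]
  linear_combination (OU g s u y 0 i * OU g s u y (i + 1) j) * h3' +
    (OU g s u y 0 i) * h4 + h5

/-! ### the multiplier `y (m-1) + g m s` -/

/-- The multiplier kills the last factor. -/
theorem z2_kill (hs : s * s = 0) (hy : ∀ i, y i * y i = 0) (hym : y m = 0)
    (hgm1 : g (m + 1) = 0) (hgm2 : g (m + 2) = 0) (hm : 1 ≤ m) :
    (y (m - 1) + g m * s) * OU g s u y (m - 1) m = 0 := by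
  obtain ⟨n, rfl⟩ : ∃ n, m = n + 1 := ⟨m - 1, by omega⟩
  simp only [Nat.add_sub_cancel]
  rw [OU, OO_succ _ _ le_rfl, OO_self]
  simp only [VV]
  rw [hym, hgm1]
  have : g (n + 1 + 2) = 0 := hgm2
  rw [this]
  linear_combination hy n - g (n + 1) * g (n + 1) * hs

include hs hu hy hy0 hg1 hg2 hgm1 in
theorem E4s (hm : 2 ≤ m) : (y (m - 1) + g m * s) * s * OU g s u y 0 (m - 1) = 0 := by
  have h1 := E6 (g := g) hs hu hy hy0 hg1 hg2 (m := m) (j := m - 1) (by omega) (by omega)
  have : m - 1 + 2 = m + 1 := by omega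
  rw [this, hgm1] at h1
  linear_combination h1 + g m * OU g s u y 0 (m - 1) * hs

include hs hu hy hy0 hg1 hg2 in
theorem E4u (hm : 2 ≤ m) : (y (m - 1) + g m * s) * u * OU g s u y 0 (m - 1) =
    2 * g m * Om s u y m := by
  have h1 := E7 (g := g) hs hu hy hy0 hg1 hg2 (m := m) (j := m - 1) (by omega) (by omega)
  have : m - 1 + 1 = m := by omega
  rw [this] at h1
  have h2 := E6a (g := g) hs hu hy hy0 (m := m) (by omega)
  linear_combination h1 + g m * h2

include hs hu hy hy0 hg1 hg2 hgm1 in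
theorem E4y {j : ℕ} (h1 : 1 ≤ j) (h2 : j < m) :
    (y (m - 1) + g m * s) * y j * OU g s u y 0 (m - 1) =
      (2 * (g m * g (j + 2)) - 2 * (g (j + 1) * g (j + 2))) * Om s u y m := by
  have h3 := E6 (g := g) hs hu hy hy0 hg1 hg2 (m := m) h1 h2
  rcases Nat.lt_or_ge j (m - 1) with h | h
  · have h4 := E8 (g := g) hs hu hy hy0 hg1 hg2 (m := m) h1 h (by omega)
    have e1 : m - 1 + 2 = m + 1 := by omega
    have e2 : m - 1 + 1 = m := by omega
    rw [e1, e2, hgm1] at h4
    linear_combination h4 + g m * h3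
  · have e : j = m - 1 := by omega
    subst e
    have e1 : m - 1 + 2 = m + 1 := by omega
    have e2 : m - 1 + 1 = m := by omega
    rw [e1] at h3 ⊢
    rw [e2]
    rw [hgm1] at h3 ⊢
    linear_combination OU g s u y 0 (m - 1) * hy (m - 1) + g m * h3

/-! ### the multiplier `y 1 - g 3 u` -/

/-- The multiplier kills the first factor. -/
theorem z1_kill (hu : u * u = 0) (hy : ∀ i, y i * y i = 0) (hy0 : y 0 = 0)
    (hg1 : g 1 = 0) (hg2 : g 2 = 0) :
    (y 1 - g 3 * u) * OU g s u y 0 1 = 0 := by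
  rw [OU, OO_succ _ _ le_rfl, OO_self]
  simp only [VV]
  norm_num
  rw [hy0, hg1, hg2]
  linear_combination hy 1 - g 3 * g 3 * hu

include hs hu hy hym hgm1 hgm2 in
theorem E5s (hm : 2 ≤ m) : (y 1 - g 3 * u) * s * OU g s u y 1 m =
    -2 * g 3 * Om s u y m := by
  have h3 := ocl (g := g) hs hu hy (a := 1) (b := m) (by omega) (z := y 1 * s)
    (by linear_combination s * hy 1) (by rw [hym, mul_zero])
    (by linear_combination u * y 1 * hs)
  rw [VVm hgm1 hgm2] at h3
  have h4 := oL (g := g) (s := s) (u := u) hy (a := 1) (b := m) (by omega)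
    (z := u * s) (by rw [hym, mul_zero]) (by linear_combination u * hs)
    (by linear_combination s * hu)
  have h5 := prod_split y (a := 1) (j := 1) (b := m) le_rfl (by omega)
  simp only [Ico_self, prod_empty, one_mul] at h5
  have h6 := s_VV (g := g) (u := u) hs 1
  rw [Om, h5]
  rw [h5] at h4
  norm_num at h3 h4 h6 ⊢
  linear_combination h3 - g 3 * h4 - y 1 * (∏ i ∈ Ico 2 m, y i) * h6

include hs hu hy hym hg2 hgm1 hgm2 in
theorem E5u (hm : 2 ≤ m) : (y 1 - g 3 * u) * u * OU g s u y 1 m = 0 := by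
  have h3 := ocl (g := g) hs hu hy (a := 1) (b := m) (by omega) (z := y 1 * u)
    (by linear_combination u * hy 1) (by rw [hym, mul_zero])
    (by linear_combination s * y 1 * hu)
  rw [VVm hgm1 hgm2] at h3
  have h6 := u_VV (g := g) (s := s) hu 1
  norm_num at h3 h6
  rw [hg2, zero_mul] at h6
  linear_combination h3 - g 3 * OU g s u y 1 m * hu - y 1 * (∏ i ∈ Ico 2 m, y i) * h6

include hs hu hy hym hg2 hgm1 hgm2 in
theorem E5y {j : ℕ} (h1 : 1 ≤ j) (h2 : j < m) : (y 1 - g 3 * u) * y j * OU g s u y 1 m =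
    (2 * (g 3 * g (j + 1)) - 2 * (g (j + 1) * g (j + 2))) * Om s u y m := by
  rcases Nat.eq_or_lt_of_le h1 with h | h
  · subst h
    have h3 := E5u (g := g) hs hu hy hym hg2 hgm1 hgm2 (by omega)
    norm_num
    rw [hg2]
    linear_combination -g 3 * h3 + (OU g s u y 1 m) * hy 1 - g 3 * g 3 * OU g s u y 1 m * hu
  · have h3 := osp (g := g) hs hu hy (a := 1) (c := j) (b := m) h h2 (z := y 1 * y j)
      (by linear_combination y j * hy 1) (by linear_combination y 1 * hy j)
      (by rw [hym, mul_zero])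
    rw [VVm hgm1 hgm2] at h3
    have h4 := ocl (g := g) hs hu hy (a := j) (b := m) h2 (z := u * y j)
      (by linear_combination u * hy j) (by rw [hym, mul_zero])
      (by linear_combination s * y j * hu)
    rw [VVm hgm1 hgm2] at h4
    have h4' : u * y j * OU g s u y j m =
        -g (j + 1) * (s * u) * y j * ∏ i ∈ Ico (j + 1) m, y i := by
      linear_combination h4 - (y j * ∏ i ∈ Ico (j + 1) m, y i) * u_VV (g := g) (s := s) hu j
    have h5 := oL (g := g) (s := s) (u := u) hy (a := 1) (b := j) (by omega)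
      (z := -g (j + 1) * (s * u) * y j * ∏ i ∈ Ico (j + 1) m, y i)
      (by linear_combination (-g (j + 1) * (s * u) * ∏ i ∈ Ico (j + 1) m, y i) * hy j)
      (by linear_combination (-g (j + 1) * u * y j * ∏ i ∈ Ico (j + 1) m, y i) * hs)
      (by linear_combination (-g (j + 1) * s * y j * ∏ i ∈ Ico (j + 1) m, y i) * hu)
    have h6 : (VV g s u j - VV g s u 1) * (0 - VV g s u j) =
        (g 3 * g (j + 1) - 2 * (g (j + 1) * g (j + 2))) * (s * u) := by
      have a1 := VV_mul (g := g) hs hu 1 j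
      have a2 := VV_mul (g := g) hs hu j j
      norm_num at a1
      rw [hg2] at a1
      linear_combination a1 - a2
    rw [h6] at h3
    have h7 := OU_split (g := g) (s := s) (u := u) (y := y) (a := 1) (c := j) (b := m)
      (by omega) (by omega)
    have h8 := prod_split y (a := 1) (j := 1) (b := j) le_rfl (by omega)
    simp only [Ico_self, prod_empty, one_mul] at h8
    rw [Om, prod_split y h1 h2, h8]
    rw [h8] at h5
    linear_combination h3 - g 3 * u * y j * h7 - g 3 * OU g s u y 1 j * h4' - g 3 * h5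

end outer

end Pool.Agent.Helper95K9.HO
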