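import Pool.Agent.Helper95K9.HO.Tanrel
import Pool.Agent.Helper95K9.HO.Sqa
import Pool.Agent.Helper95K9.HO.Lin

/-!
# The scalar relations
-/

set_option autoImplicit false

namespace Pool.Agent.Helper95K9.HO

open Finset
open Pool.Agent.Helper86K9.HK

universe u

theorem prod_cols {S : Type*} [CommMonoid S] (n : ℕ) (f : ℕ → S) :
    ∏ c ∈ Icc 1 (2 * n + 2), f c =
      f 1 * f 2 * (∏ l ∈ Ico 1 (n + 1), f (l + 2)) * ∏ j ∈ Ico 1 (n + 1), f (2 * n + 3 - j) := by
  have h1 : Icc 1 (2 * n + 2) = Ico 1 (2 * n + 3) := by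
    ext i
    simp only [mem_Icc, mem_Ico]
    omega
  have h2 : ∏ l ∈ Ico 1 (n + 1), f (l + 2) = ∏ c ∈ Ico 3 (n + 3), f c := by
    rw [prod_Ico_add' f 1 (n + 1) 2]
  have h3 : ∏ j ∈ Ico 1 (n + 1), f (2 * n + 3 - j) = ∏ c ∈ Ico (n + 3) (2 * n + 3), f c := by
    rw [prod_Ico_reflect f 1 (by omega : n + 1 ≤ 2 * n + 3 + 1)]
    have e1 : 2 * n + 3 + 1 - (n + 1) = n + 3 := by omega
    have e2 : 2 * n + 3 + 1 - 1 = 2 * n + 3 := by omega
    rw [e1, e2]
  rw [h1, h2, h3, ← prod_Ico_consecutive f (by omega : 1 ≤ n + 3) (by omega : n + 3 ≤ 2 * n + 3),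
    ← prod_Ico_consecutive f (by omega : 1 ≤ 3) (by omega : 3 ≤ n + 3)]
  congr 2
  rw [prod_Ico_succ_top (by omega), prod_Ico_succ_top (by omega)]
  simp

theorem full_mon {S : Type*} [CommRing S] (n : ℕ) (z : ℕ → S) :
    Yin n (fun l => z (l + 2)) * Om (z 1) (z 2) (ys n z) (n + 1) =
      ∏ c ∈ Icc 1 (2 * n + 2), z c := by
  have h : ∏ j ∈ Ico 1 (n + 1), z (2 * n + 3 - j) = ∏ j ∈ Ico 1 (n + 1), ys n z j := by
    apply prod_congr rfl
    intro j hj
    rw [mem_Ico] at hj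
    rw [ys, if_pos ⟨hj.1, by omega⟩]
  rw [prod_cols, h, Yin, Om]
  ring

section

variable {A : Type u} [CommRing A] [IsDomain A] {n : ℕ} {X : A} {g : ℕ → A}
  (hg : ∀ p, p ≤ 2 ∨ n + 1 < p → g p = 0) (hn : 3 ≤ n)

omit [IsDomain A] in
/-- The coefficient `0` lemma. -/
theorem ext0 {a : A} {Z : Sq A}
    (hZ : Z = Yin n (fun l => sqx A (l + 2)) * Om (sqx A 1) (sqx A 2) (ys n (sqx A)) (n + 1))
    (h : algebraMap A (Sq A) a * Z = 0) : a = 0 := by
  rw [hZ, full_mon] at h
  exact (alg3 A).2 a _ h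

omit [IsDomain A] in
theorem extX {a : A} {Z t : Sq A}
    (hZ : Z = Yin n (fun l => sqx A (l + 2)) * Om (sqx A 1) (sqx A 2) (ys n (sqx A)) (n + 1))
    (h : algebraMap A (Sq A) a * Z = algebraMap A (Sq A) X * t) : X ∣ a := by
  rw [hZ, full_mon] at h
  exact extr h

include hg hn in
theorem fam : Fam n (sqx A 1) (sqx A 2) (ys n (sqx A)) (fun l => sqx A (l + 2))
    (fun p => algebraMap A (Sq A) (g p)) where
  hn := hn
  hs := (alg3 A).1 1
  hu := (alg3 A).1 2
  hy := by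
    intro i
    rw [ys]
    split_ifs
    · exact (alg3 A).1 _
    · exact mul_zero _
  he := fun i => (alg3 A).1 _
  hy0 := by
    rw [ys, if_neg (by omega)]
  hym := by
    rw [ys, if_neg (by omega)]
  hg := by
    intro p hp
    rw [hg p hp, map_zero]

variable {δ : ℕ → A} {v1 v2 : A} (hX : X ≠ 0) (h2 : (2 : A) ≠ 0)
  (hgs : ∀ p, 3 ≤ p → p ≤ n + 1 → g p * g p = 1)
  (hT : Tan (2 * n + 1) (2 * n + 1) (2 * n + 2) (qq n X g) δ)
  (h1 : δ 1 = X * v1) (h2' : δ 2 = X * v2)

include hg hn hX hT h1 h2' in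
theorem rel_main : REL n (algebraMap A (Sq A) X) (sqx A 1) (sqx A 2) (ys n (sqx A))
    (fun l => sqx A (l + 2)) (fun p => algebraMap A (Sq A) (g p))
    (LF n (sqx A 1) (sqx A 2) (ys n (sqx A)) (algebraMap A (Sq A) v1) (algebraMap A (Sq A) v2)
        (fun j => algebraMap A (Sq A) (δ (2 * n + 3 - j))))
    (fun l => algebraMap A (Sq A) (δ (l + 2)))
    (fun j => LF n (sqx A 1) (sqx A 2) (ys n (sqx A))
        (algebraMap A (Sq A) (δ (2 * n + 3 - (j + 1))))
        (algebraMap A (Sq A) (δ (2 * n + 3 - j)))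
        (fun l => algebraMap A (Sq A) (X * δ (4 * n + 4 - j - l))))
    (fun j l => algebraMap A (Sq A) (X * δ (2 * n + 3 + l - j))) := by
  have h := tanrel hg hn (sqx A) hT h1 h2' (alg3 A).1
  rw [← map_pow] at h
  exact tf (pow_ne_zero _ hX) h

include hg hn hX h2 hgs hT h1 h2' in
theorem relT_scal {j : ℕ} (hj1 : 1 ≤ j) (hj2 : j < n) :
    ∑ l ∈ Ico 1 (n + 1), δ (4 * n + 4 - j - l) * (g (l + 1) * g (l + 2)) = 0 := by
  have F := fam (A := A) hg hn
  have hR := rel_main hg hn hX hT h1 h2'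
  have h3 := relTj F hR hj1 hj2
  rw [ev_T F] at h3
  have h4 : algebraMap A (Sq A) (2 * g (j + 2) * ∑ l ∈ Ico 1 (n + 1),
      X * δ (4 * n + 4 - j - l) * (-2 * (g (l + 1) * g (l + 2)))) *
      (Yin n (fun l => sqx A (l + 2)) * Om (sqx A 1) (sqx A 2) (ys n (sqx A)) (n + 1)) = 0 := by
    rw [← h3]
    simp only [map_mul, map_sum, map_neg, map_ofNat]
    ring
  have h5 := ext0 rfl h4
  have h6 : (2 * g (j + 2)) * (X * (-2)) *
      ∑ l ∈ Ico 1 (n + 1), δ (4 * n + 4 - j - l) * (g (l + 1) * g (l + 2)) = 0 := by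
    rw [← h5, mul_sum, mul_sum]
    exact sum_congr rfl (fun l _ => by ring)
  have h7 : g (j + 2) ≠ 0 := by
    intro h
    have := hgs (j + 2) (by omega) (by omega)
    rw [h] at this
    simp at this
  exact (mul_eq_zero.1 h6).resolve_left
    (mul_ne_zero (mul_ne_zero h2 h7) (mul_ne_zero hX (neg_ne_zero.2 h2)))

include hg hn hX h2 hT h1 h2' in
theorem relT0_scal :
    ∑ l ∈ Ico 1 (n + 1), δ (2 * n + 3 - l) * (g (l + 1) * g (l + 2)) = 0 := by
  have F := fam (A := A) hg hn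
  have hR := rel_main hg hn hX hT h1 h2'
  have h3 := relT0 F hR
  rw [ev_T F] at h3
  have h4 : algebraMap A (Sq A) (2 * ∑ l ∈ Ico 1 (n + 1),
      δ (2 * n + 3 - l) * (-2 * (g (l + 1) * g (l + 2)))) *
      (Yin n (fun l => sqx A (l + 2)) * Om (sqx A 1) (sqx A 2) (ys n (sqx A)) (n + 1)) = 0 := by
    rw [← h3]
    simp only [map_mul, map_sum, map_neg, map_ofNat]
    ring
  have h5 := ext0 rfl h4
  have h6 : (2 * (-2)) *
      ∑ l ∈ Ico 1 (n + 1), δ (2 * n + 3 - l) * (g (l + 1) * g (l + 2)) = 0 := by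
    rw [← h5, mul_sum, mul_sum]
    exact sum_congr rfl (fun l _ => by ring)
  exact (mul_eq_zero.1 h6).resolve_left (mul_ne_zero h2 (neg_ne_zero.2 h2))

include hg hn hX h2 hgs hT h1 h2' in
/-- The upper coordinates vanish. -/
theorem upper (hB1 : ∀ p, 2 * n + 3 ≤ p → p ≤ 3 * n + 2 → δ p = 0) (hB2 : δ (4 * n + 2) = 0) :
    ∀ p, 2 * n + 3 ≤ p → p ≤ 4 * n + 2 → δ p = 0 := by
  intro p
  induction p using Nat.strong_induction_on with
  | _ p ih =>
    intro hp1 hp2
    by_cases h : p ≤ 3 * n + 2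
    · exact hB1 p hp1 h
    · by_cases h' : p = 4 * n + 2
      · rw [h', hB2]
      · have h3 := relT_scal hg hn hX h2 hgs hT h1 h2' (j := 4 * n + 2 - p) (by omega)
          (by omega)
        rw [sum_eq_single_of_mem 2 (mem_Ico.2 ⟨by omega, by omega⟩)] at h3
        · have e1 : 4 * n + 4 - (4 * n + 2 - p) - 2 = p := by omega
          rw [e1] at h3
          have h4 : g (2 + 1) * g (2 + 2) ≠ 0 := by
            intro h5
            have a1 := hgs (2 + 1) (by omega) (by omega)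
            have a2 := hgs (2 + 2) (by omega) (by omega)
            have : (1 : A) = 0 := by
              linear_combination g (2 + 1) * g (2 + 2) * h5 - g (2 + 1) * g (2 + 1) * a2 - a1
            exact one_ne_zero this
          exact (mul_eq_zero.1 h3).resolve_right h4
        · intro l hl hl2
          rw [mem_Ico] at hl
          rcases Nat.lt_or_ge l 2 with h5 | h5
          · rw [hg (l + 1) (by omega)]
            ring
          · by_cases h6 : l = n
            · rw [hg (l + 2) (by omega)]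
              ring
            · rw [ih _ (by omega) (by omega) (by omega), zero_mul]

/-- The scalar `π`. -/
def pis (n : ℕ) (X : A) (g δ : ℕ → A) : A :=
  δ 3 + X * ∑ j ∈ Ico 1 n, g (j + 2) * sg (fun l => δ (2 * n + 3 + l - j)) n j

include hg hn hX h2 hT h1 h2' in
theorem rr_main (hup : ∀ p, 2 * n + 3 ≤ p → p ≤ 4 * n + 2 → δ p = 0)
    (hB3 : ∀ p, 4 ≤ p → p ≤ n + 2 → δ p = 0) :
    RR n (algebraMap A (Sq A) X) (sqx A 1) (sqx A 2) (ys n (sqx A))
    (fun l => sqx A (l + 2)) (fun p => algebraMap A (Sq A) (g p))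
    (algebraMap A (Sq A) (pis n X g δ)) (algebraMap A (Sq A) v1) (algebraMap A (Sq A) v2)
    (fun j => algebraMap A (Sq A) (δ (2 * n + 3 - j))) := by
  have F := fam (A := A) hg hn
  have hR := rel_main hg hn hX hT h1 h2'
  have h3 := relT0_scal hg hn hX h2 hT h1 h2'
  have hMj : ∀ j ∈ Ico 1 n, LF n (sqx A 1) (sqx A 2) (ys n (sqx A))
        (algebraMap A (Sq A) (δ (2 * n + 3 - (j + 1))))
        (algebraMap A (Sq A) (δ (2 * n + 3 - j)))
        (fun l => algebraMap A (Sq A) (X * δ (4 * n + 4 - j - l))) =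
      LF n (sqx A 1) (sqx A 2) (ys n (sqx A))
        (algebraMap A (Sq A) (δ (2 * n + 3 - (j + 1))))
        (algebraMap A (Sq A) (δ (2 * n + 3 - j))) (fun _ => 0) := by
    intro j hj
    rw [mem_Ico] at hj
    simp only [LF]
    congr 1
    apply sum_congr rfl
    intro l hl
    rw [mem_Ico] at hl
    rw [hup (4 * n + 4 - j - l) (by omega) (by omega), mul_zero, map_zero]
  have h0 : LF n (sqx A 1) (sqx A 2) (ys n (sqx A)) (algebraMap A (Sq A) v1)
      (algebraMap A (Sq A) v2) (fun j => algebraMap A (Sq A) (δ (2 * n + 3 - j))) *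
      OU (fun p => algebraMap A (Sq A) (g p)) (sqx A 1) (sqx A 2) (ys n (sqx A)) 0 (n + 1)
        = 0 := by
    rw [ev_T F]
    have e1 : ∑ l ∈ Ico 1 (n + 1), algebraMap A (Sq A) (δ (2 * n + 3 - l)) *
        (-2 * (algebraMap A (Sq A) (g (l + 1)) * algebraMap A (Sq A) (g (l + 2)))) =
        algebraMap A (Sq A) (-2 * ∑ l ∈ Ico 1 (n + 1),
          δ (2 * n + 3 - l) * (g (l + 1) * g (l + 2))) := by
      simp only [map_mul, map_sum, map_neg, map_ofNat]
      rw [mul_sum]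
      exact sum_congr rfl (fun l _ => by ring)
    rw [e1, h3, mul_zero, map_zero, zero_mul]
  have hj : ∀ j ∈ Ico 1 n, LF n (sqx A 1) (sqx A 2) (ys n (sqx A))
        (algebraMap A (Sq A) (δ (2 * n + 3 - (j + 1))))
        (algebraMap A (Sq A) (δ (2 * n + 3 - j)))
        (fun l => algebraMap A (Sq A) (X * δ (4 * n + 4 - j - l))) *
      OU (fun p => algebraMap A (Sq A) (g p)) (sqx A 1) (sqx A 2) (ys n (sqx A)) 0 (n + 1)
        = 0 := by
    intro j hj
    rw [hMj j hj, ev_T F]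
    simp
  have h4 := relR F hR h0 hj
  have h5 : (∑ l ∈ Ico 1 (n + 1), algebraMap A (Sq A) (δ (l + 2))) +
      ∑ j ∈ Ico 1 n, algebraMap A (Sq A) (g (j + 2)) *
        sg (fun l => algebraMap A (Sq A) (X * δ (2 * n + 3 + l - j))) n j =
      algebraMap A (Sq A) (pis n X g δ) := by
    rw [pis, map_add]
    congr 1
    · rw [sum_eq_single_of_mem 1 (mem_Ico.2 ⟨by omega, by omega⟩)]
      intro l hl hl1
      rw [mem_Ico] at hl
      rw [hB3 (l + 2) (by omega) (by omega), map_zero]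
    · rw [map_mul, map_sum, mul_sum]
      apply sum_congr rfl
      intro j _
      simp only [sg, map_mul, map_sub, map_sum]
      rw [← mul_sum, ← mul_sum]
      ring
  rw [h5] at h4
  rw [RR]
  have h6 : (LF n (sqx A 1) (sqx A 2) (ys n (sqx A)) (algebraMap A (Sq A) v1)
      (algebraMap A (Sq A) v2) (fun j => algebraMap A (Sq A) (δ (2 * n + 3 - j))) +
      ∑ j ∈ Ico 1 n, algebraMap A (Sq A) (g (j + 2)) *
        LF n (sqx A 1) (sqx A 2) (ys n (sqx A))
        (algebraMap A (Sq A) (δ (2 * n + 3 - (j + 1))))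
        (algebraMap A (Sq A) (δ (2 * n + 3 - j)))
        (fun l => algebraMap A (Sq A) (X * δ (4 * n + 4 - j - l)))) =
      LF n (sqx A 1) (sqx A 2) (ys n (sqx A)) (algebraMap A (Sq A) v1 +
        ∑ j ∈ Ico 1 n, algebraMap A (Sq A) (g (j + 2)) *
          algebraMap A (Sq A) (δ (2 * n + 3 - (j + 1))))
      (algebraMap A (Sq A) v2 + ∑ j ∈ Ico 1 n, algebraMap A (Sq A) (g (j + 2)) *
          algebraMap A (Sq A) (δ (2 * n + 3 - j)))
      (fun j => algebraMap A (Sq A) (δ (2 * n + 3 - j))) := by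
    have := LF_comb (n := n) (s := sqx A 1) (u := sqx A 2) (y := ys n (sqx A))
      (fun j => algebraMap A (Sq A) (g (j + 2))) 1 (algebraMap A (Sq A) v1)
      (algebraMap A (Sq A) v2) (fun j => algebraMap A (Sq A) (δ (2 * n + 3 - j)))
      (fun j => algebraMap A (Sq A) (δ (2 * n + 3 - (j + 1))))
      (fun j => algebraMap A (Sq A) (δ (2 * n + 3 - j))) (Ico 1 n)
    simp only [one_mul] at this
    rw [← this]
    congr 1
    exact sum_congr rfl (fun j hj => by rw [hMj j hj])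
  have h7 : ∀ i, (-algebraMap A (Sq A) (g (i + 3)) * LF n (sqx A 1) (sqx A 2) (ys n (sqx A))
      (algebraMap A (Sq A) v1)
      (algebraMap A (Sq A) v2) (fun j => algebraMap A (Sq A) (δ (2 * n + 3 - j))) +
      ∑ j ∈ Ico 1 n, algebraMap A (Sq A) (g (j + 2)) *
        ((algebraMap A (Sq A) (g (i + 3)) - 2 * algebraMap A (Sq A) (g (i + 3 + j))) *
        LF n (sqx A 1) (sqx A 2) (ys n (sqx A))
        (algebraMap A (Sq A) (δ (2 * n + 3 - (j + 1))))
        (algebraMap A (Sq A) (δ (2 * n + 3 - j)))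
        (fun l => algebraMap A (Sq A) (X * δ (4 * n + 4 - j - l))))) =
      LF n (sqx A 1) (sqx A 2) (ys n (sqx A))
        (-algebraMap A (Sq A) (g (i + 3)) * algebraMap A (Sq A) v1 +
          ∑ j ∈ Ico 1 n, algebraMap A (Sq A) (g (j + 2)) *
        (algebraMap A (Sq A) (g (i + 3)) - 2 * algebraMap A (Sq A) (g (i + 3 + j))) *
          algebraMap A (Sq A) (δ (2 * n + 3 - (j + 1))))
        (-algebraMap A (Sq A) (g (i + 3)) * algebraMap A (Sq A) v2 +
          ∑ j ∈ Ico 1 n, algebraMap A (Sq A) (g (j + 2)) *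
        (algebraMap A (Sq A) (g (i + 3)) - 2 * algebraMap A (Sq A) (g (i + 3 + j))) *
          algebraMap A (Sq A) (δ (2 * n + 3 - j)))
        (fun l => -algebraMap A (Sq A) (g (i + 3)) * algebraMap A (Sq A) (δ (2 * n + 3 - l))) := by
    intro i
    rw [← LF_comb]
    congr 1
    exact sum_congr rfl (fun j hj => by
      rw [hMj j hj]
      ring)
  rw [h6] at h4
  simp only [h7] at h4
  exact h4

end

end Pool.Agent.Helper95K9.HO
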