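import Pool.Agent.Helper95K9.HO.Eval
import Pool.Agent.Helper86K9.HK.Tan

/-!
# The main relation for tangent vectors
-/

set_option autoImplicit false

namespace Pool.Agent.Helper95K9.HO

open Finset TrivSqZeroExt
open Pool.Agent.Helper86K9.HK

universe u

/-- The point. -/
def qq {A : Type*} [CommRing A] (n : ℕ) (X : A) (g : ℕ → A) (p : ℕ) : A :=
  X * (g p - g (p - 1)) + (if p = 2 * n + 3 then 1 else 0) + (if p = 2 * n + 4 then 1 else 0)

theorem sum_cols {S : Type*} [AddCommMonoid S] (n : ℕ) (f : ℕ → S) :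
    ∑ c ∈ Icc 1 (2 * n + 2), f c =
      f 1 + f 2 + ∑ l ∈ Ico 1 (n + 1), f (l + 2) + ∑ j ∈ Ico 1 (n + 1), f (2 * n + 3 - j) := by
  have h1 : Icc 1 (2 * n + 2) = Ico 1 (2 * n + 3) := by
    ext i
    simp only [mem_Icc, mem_Ico]
    omega
  have h2 : ∑ l ∈ Ico 1 (n + 1), f (l + 2) = ∑ c ∈ Ico 3 (n + 3), f c := by
    rw [sum_Ico_add' f 1 (n + 1) 2]
  have h3 : ∑ j ∈ Ico 1 (n + 1), f (2 * n + 3 - j) = ∑ c ∈ Ico (n + 3) (2 * n + 3), f c := by
    rw [sum_Ico_reflect f 1 (by omega : n + 1 ≤ 2 * n + 3 + 1)]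
    have e1 : 2 * n + 3 + 1 - (n + 1) = n + 3 := by omega
    have e2 : 2 * n + 3 + 1 - 1 = 2 * n + 3 := by omega
    rw [e1, e2]
  rw [h1, h2, h3, ← sum_Ico_consecutive f (by omega : 1 ≤ n + 3) (by omega : n + 3 ≤ 2 * n + 3),
    ← sum_Ico_consecutive f (by omega : 1 ≤ 3) (by omega : 3 ≤ n + 3)]
  congr 2
  rw [sum_Ico_succ_top (by omega), sum_Ico_succ_top (by omega)]
  simp

theorem prod_rows {S : Type*} [CommMonoid S] (n : ℕ) (hn : 1 ≤ n) (f : ℕ → S) :
    ∏ r ∈ range (2 * n + 1), f r =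
      f 0 * (∏ i ∈ Ico 0 (n + 1), f (i + 1)) * ∏ j ∈ Ico 1 n, f (2 * n + 1 - j) := by
  have h2 : ∏ l ∈ Ico 0 (n + 1), f (l + 1) = ∏ c ∈ Ico 1 (n + 2), f c := by
    rw [prod_Ico_add' f 0 (n + 1) 1]
  have h3 : ∏ j ∈ Ico 1 n, f (2 * n + 1 - j) = ∏ c ∈ Ico (n + 2) (2 * n + 1), f c := by
    rw [prod_Ico_reflect f 1 (by omega : n ≤ 2 * n + 1 + 1)]
    have e1 : 2 * n + 1 + 1 - n = n + 2 := by omega
    have e2 : 2 * n + 1 + 1 - 1 = 2 * n + 1 := by omega
    rw [e1, e2]
  rw [h2, h3, range_eq_Ico, mul_assoc,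
    prod_Ico_consecutive f (by omega : 1 ≤ n + 2) (by omega : n + 2 ≤ 2 * n + 1),
    prod_eq_prod_Ico_succ_bot (by omega)]

section

variable {A S : Type u} [CommRing A] [CommRing S] [Algebra A S] {n : ℕ}

/-- The scaled elements. -/
def xs (X : A) (z : ℕ → S) (c : ℕ) : S := if c ≤ 2 then z c else algebraMap A S X * z c

/-- The outer variables. -/
def ys (n : ℕ) (z : ℕ → S) (j : ℕ) : S := if 1 ≤ j ∧ j ≤ n then z (2 * n + 3 - j) else 0

/-- The rows of an arbitrary sequence. -/
theorem row_gen (X : A) (z : ℕ → S) (d : ℕ → A) (r : ℕ) :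
    row (2 * n + 2) d (xs X z) r = algebraMap A S (d (r + 1)) * z 1 +
      algebraMap A S (d (r + 2)) * z 2 +
      algebraMap A S X * (∑ l ∈ Ico 1 (n + 1), algebraMap A S (d (r + (l + 2))) * z (l + 2)) +
      algebraMap A S X * (∑ j ∈ Ico 1 (n + 1), algebraMap A S (d (r + (2 * n + 3 - j))) *
        ys n z j) := by
  rw [row, sum_cols, mul_sum, mul_sum]
  simp only [Algebra.smul_def]
  have a1 : xs X z 1 = z 1 := by simp [xs]
  have a2 : xs X z 2 = z 2 := by simp [xs]
  have a3 : ∑ l ∈ Ico 1 (n + 1), algebraMap A S (d (r + (l + 2))) * xs X z (l + 2) =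
      ∑ l ∈ Ico 1 (n + 1),
        algebraMap A S X * (algebraMap A S (d (r + (l + 2))) * z (l + 2)) := by
    apply sum_congr rfl
    intro l hl
    rw [mem_Ico] at hl
    rw [xs, if_neg (by omega)]
    ring
  have a4 : ∑ j ∈ Ico 1 (n + 1), algebraMap A S (d (r + (2 * n + 3 - j))) *
        xs X z (2 * n + 3 - j) =
      ∑ j ∈ Ico 1 (n + 1), algebraMap A S X * (algebraMap A S (d (r + (2 * n + 3 - j))) *
        ys n z j) := by
    apply sum_congr rfl
    intro j hj
    rw [mem_Ico] at hj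
    rw [xs, if_neg (by omega), ys, if_pos ⟨hj.1, by omega⟩]
    ring
  rw [a1, a2, a3, a4]

variable {X : A} {g : ℕ → A} (hg : ∀ p, p ≤ 2 ∨ n + 1 < p → g p = 0) (hn : 3 ≤ n) (z : ℕ → S)

include hg hn in
theorem rowq0 : row (2 * n + 2) (qq n X g) (xs X z) 0 =
    algebraMap A S X ^ 2 * ∑ l ∈ Ico 1 (n + 1),
      (algebraMap A S (g (l + 1 + 1)) - algebraMap A S (g (l + 1))) * z (l + 2) := by
  rw [row_gen]
  have h1 : qq n X g (0 + 1) = 0 := by
    rw [qq, if_neg (by omega), if_neg (by omega), hg 1 (by omega), hg 0 (by omega)]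
    ring
  have h2 : qq n X g (0 + 2) = 0 := by
    rw [qq, if_neg (by omega), if_neg (by omega), hg 2 (by omega), hg 1 (by omega)]
    ring
  have h3 : ∑ j ∈ Ico 1 (n + 1), algebraMap A S (qq n X g (0 + (2 * n + 3 - j))) *
        ys n z j = 0 := by
    apply sum_eq_zero
    intro j hj
    rw [mem_Ico] at hj
    rw [qq, if_neg (by omega), if_neg (by omega), hg (0 + (2 * n + 3 - j)) (by omega),
      hg (0 + (2 * n + 3 - j) - 1) (by omega)]
    simp
  have h4 : ∑ l ∈ Ico 1 (n + 1), algebraMap A S (qq n X g (0 + (l + 2))) * z (l + 2) =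
      algebraMap A S X * ∑ l ∈ Ico 1 (n + 1),
      (algebraMap A S (g (l + 1 + 1)) - algebraMap A S (g (l + 1))) * z (l + 2) := by
    rw [mul_sum]
    apply sum_congr rfl
    intro l hl
    rw [mem_Ico] at hl
    have e1 : 0 + (l + 2) = l + 1 + 1 := by ring
    rw [qq, if_neg (by omega), if_neg (by omega), e1, Nat.add_sub_cancel, add_zero, add_zero,
      map_mul, map_sub]
    ring
  rw [h1, h2, h3, h4, map_zero]
  ring

include hg hn in
theorem rowqi {i : ℕ} (hi : i ∈ Ico 0 (n + 1)) :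
    row (2 * n + 2) (qq n X g) (xs X z) (i + 1) = algebraMap A S X *
      ((VV (fun p => algebraMap A S (g p)) (z 1) (z 2) (i + 1) -
        VV (fun p => algebraMap A S (g p)) (z 1) (z 2) i + (ys n z i + ys n z (i + 1))) +
      NN n (algebraMap A S X) (fun l => z (l + 2)) (fun p => algebraMap A S (g p)) i) := by
  rw [mem_Ico] at hi
  rw [row_gen]
  have h1 : qq n X g (i + 1 + 1) = X * (g (i + 2) - g (i + 1)) := by
    rw [qq, if_neg (by omega), if_neg (by omega)]
    simp
  have h2 : qq n X g (i + 1 + 2) = X * (g (i + 3) - g (i + 2)) := by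
    rw [qq, if_neg (by omega), if_neg (by omega)]
    simp [add_assoc]
  have h3 : ∑ j ∈ Ico 1 (n + 1), algebraMap A S (qq n X g (i + 1 + (2 * n + 3 - j))) *
        ys n z j = ys n z i + ys n z (i + 1) := by
    have e1 : ∀ j ∈ Ico 1 (n + 1), algebraMap A S (qq n X g (i + 1 + (2 * n + 3 - j))) *
        ys n z j = (if j = i then ys n z i else 0) + (if j = i + 1 then ys n z (i + 1) else 0) := by
      intro j hj
      rw [mem_Ico] at hj
      rw [qq, hg (i + 1 + (2 * n + 3 - j)) (by omega),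
        hg (i + 1 + (2 * n + 3 - j) - 1) (by omega)]
      by_cases h : j = i
      · subst h
        rw [if_neg (by omega), if_pos (by omega), if_pos rfl, if_neg (by omega)]
        simp
      · by_cases h' : j = i + 1
        · subst h'
          rw [if_pos (by omega), if_neg (by omega), if_neg (by omega), if_pos rfl]
          simp
        · rw [if_neg (by omega), if_neg (by omega), if_neg h, if_neg h']
          simp
    rw [sum_congr rfl e1, sum_add_distrib, sum_ite_eq', sum_ite_eq']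
    congr 1
    · split_ifs with h
      · rfl
      · rw [mem_Ico] at h
        rw [ys, if_neg (by omega)]
    · split_ifs with h
      · rfl
      · rw [mem_Ico] at h
        rw [ys, if_neg (by omega)]
  have h4 : ∑ l ∈ Ico 1 (n + 1), algebraMap A S (qq n X g (i + 1 + (l + 2))) * z (l + 2) =
      NN n (algebraMap A S X) (fun l => z (l + 2)) (fun p => algebraMap A S (g p)) i := by
    rw [NN, mul_sum]
    have e1 : ∀ l ∈ Ico 1 (n + 1), algebraMap A S (qq n X g (i + 1 + (l + 2))) * z (l + 2) =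
        algebraMap A S X * ((algebraMap A S (g (i + 2 + 1 + l)) -
          algebraMap A S (g (i + 2 + l))) * z (l + 2)) +
          (if l = n then (if i = n then z (n + 2) else 0) else 0) := by
      intro l hl
      rw [mem_Ico] at hl
      have e2 : i + 1 + (l + 2) = i + 2 + 1 + l := by ring
      have e3 : i + 2 + 1 + l - 1 = i + 2 + l := by omega
      rw [qq, e2, e3]
      by_cases h : l = n
      · subst h
        by_cases h' : i = l
        · subst h'
          rw [if_pos (by omega), if_neg (by omega), if_pos rfl, if_pos rfl]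
          simp only [map_add, map_mul, map_sub, map_one, map_zero]
          ring
        · rw [if_neg (by omega), if_neg (by omega), if_pos rfl, if_neg h']
          simp only [map_add, map_mul, map_sub, map_zero]
          ring
      · rw [if_neg (by omega), if_neg (by omega), if_neg h]
        simp only [map_add, map_mul, map_sub, map_zero]
        ring
    rw [sum_congr rfl e1, sum_add_distrib, sum_ite_eq', if_pos (mem_Ico.2 ⟨by omega, by omega⟩)]
  rw [h1, h2, h3, h4]
  simp only [VV, map_mul, map_sub]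
  have e1 : i + 1 + 1 = i + 2 := by ring
  have e2 : i + 1 + 2 = i + 3 := by ring
  rw [e1, e2]
  ring

include hg hn in
theorem rowqj {j : ℕ} (hj : j ∈ Ico 1 n) :
    row (2 * n + 2) (qq n X g) (xs X z) (2 * n + 1 - j) = algebraMap A S X *
      (z (j + 2) + z (j + 1 + 2)) := by
  rw [mem_Ico] at hj
  rw [row_gen]
  have h1 : qq n X g (2 * n + 1 - j + 1) = 0 := by
    rw [qq, if_neg (by omega), if_neg (by omega), hg _ (by omega), hg _ (by omega)]
    ring
  have h2 : qq n X g (2 * n + 1 - j + 2) = 0 := by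
    rw [qq, if_neg (by omega), if_neg (by omega), hg _ (by omega), hg _ (by omega)]
    ring
  have h3 : ∑ j' ∈ Ico 1 (n + 1), algebraMap A S (qq n X g (2 * n + 1 - j + (2 * n + 3 - j'))) *
        ys n z j' = 0 := by
    apply sum_eq_zero
    intro j' hj'
    rw [mem_Ico] at hj'
    rw [qq, if_neg (by omega), if_neg (by omega), hg _ (by omega), hg _ (by omega)]
    simp
  have h4 : ∑ l ∈ Ico 1 (n + 1), algebraMap A S (qq n X g (2 * n + 1 - j + (l + 2))) *
      z (l + 2) = z (j + 2) + z (j + 1 + 2) := by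
    have e1 : ∀ l ∈ Ico 1 (n + 1), algebraMap A S (qq n X g (2 * n + 1 - j + (l + 2))) *
        z (l + 2) = (if l = j then z (j + 2) else 0) + (if l = j + 1 then z (j + 1 + 2) else 0) := by
      intro l hl
      rw [mem_Ico] at hl
      rw [qq, hg (2 * n + 1 - j + (l + 2)) (by omega),
        hg (2 * n + 1 - j + (l + 2) - 1) (by omega)]
      by_cases h : l = j
      · subst h
        rw [if_pos (by omega), if_neg (by omega), if_pos rfl, if_neg (by omega)]
        simp
      · by_cases h' : l = j + 1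
        · subst h'
          rw [if_neg (by omega), if_pos (by omega), if_neg (by omega), if_pos rfl]
          simp
        · rw [if_neg (by omega), if_neg (by omega), if_neg h, if_neg h']
          simp
    rw [sum_congr rfl e1, sum_add_distrib, sum_ite_eq', sum_ite_eq',
      if_pos (mem_Ico.2 ⟨by omega, by omega⟩), if_pos (mem_Ico.2 ⟨by omega, by omega⟩)]
  rw [h1, h2, h3, h4, map_zero]
  ring

variable {δ : ℕ → A} {v1 v2 : A}

theorem rowd0 (h1 : δ 1 = X * v1) (h2 : δ 2 = X * v2) :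
    row (2 * n + 2) δ (xs X z) 0 = algebraMap A S X *
      (LF n (z 1) (z 2) (ys n z) (algebraMap A S v1) (algebraMap A S v2)
        (fun j => algebraMap A S (δ (2 * n + 3 - j))) +
        ∑ l ∈ Ico 1 (n + 1), algebraMap A S (δ (l + 2)) * z (l + 2)) := by
  rw [row_gen]
  simp only [zero_add, LF]
  rw [h1, h2, map_mul, map_mul]
  ring

theorem rowdj {j : ℕ} (hj : j ∈ Ico 1 n) :
    row (2 * n + 2) δ (xs X z) (2 * n + 1 - j) =
      (LF n (z 1) (z 2) (ys n z) (algebraMap A S (δ (2 * n + 3 - (j + 1))))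
        (algebraMap A S (δ (2 * n + 3 - j)))
        (fun l => algebraMap A S (X * δ (4 * n + 4 - j - l))) +
        ∑ l ∈ Ico 1 (n + 1), algebraMap A S (X * δ (2 * n + 3 + l - j)) * z (l + 2)) := by
  rw [mem_Ico] at hj
  rw [row_gen, LF, mul_sum, mul_sum]
  have e1 : 2 * n + 1 - j + 1 = 2 * n + 3 - (j + 1) := by omega
  have e2 : 2 * n + 1 - j + 2 = 2 * n + 3 - j := by omega
  rw [e1, e2]
  have h3 : ∑ i ∈ Ico 1 (n + 1), algebraMap A S X *
      (algebraMap A S (δ (2 * n + 1 - j + (i + 2))) * z (i + 2)) =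
      ∑ l ∈ Ico 1 (n + 1), algebraMap A S (X * δ (2 * n + 3 + l - j)) * z (l + 2) := by
    apply sum_congr rfl
    intro l hl
    have e3 : 2 * n + 1 - j + (l + 2) = 2 * n + 3 + l - j := by omega
    rw [e3, map_mul]
    ring
  have h4 : ∑ i ∈ Ico 1 (n + 1), algebraMap A S X *
      (algebraMap A S (δ (2 * n + 1 - j + (2 * n + 3 - i))) * ys n z i) =
      ∑ l ∈ Ico 1 (n + 1), algebraMap A S (X * δ (4 * n + 4 - j - l)) * ys n z l := by
    apply sum_congr rfl
    intro l hl
    rw [mem_Ico] at hl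
    have e3 : 2 * n + 1 - j + (2 * n + 3 - l) = 4 * n + 4 - j - l := by omega
    rw [e3, map_mul]
    ring
  rw [h3, h4]
  ring

include hg hn in
/-- The main relation, multiplied by a power. -/
theorem tanrel (hT : Tan (2 * n + 1) (2 * n + 1) (2 * n + 2) (qq n X g) δ)
    (h1 : δ 1 = X * v1) (h2 : δ 2 = X * v2) (hz : ∀ c, z c * z c = 0) :
    algebraMap A S X ^ (2 * n + 1) *
    ((∏ i ∈ Ico 0 (n + 1), ((VV (fun p => algebraMap A S (g p)) (z 1) (z 2) (i + 1) -
        VV (fun p => algebraMap A S (g p)) (z 1) (z 2) i + (ys n z i + ys n z (i + 1))) +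
      NN n (algebraMap A S X) (fun l => z (l + 2)) (fun p => algebraMap A S (g p)) i)) *
    ((LF n (z 1) (z 2) (ys n z) (algebraMap A S v1) (algebraMap A S v2)
        (fun j => algebraMap A S (δ (2 * n + 3 - j))) +
        ∑ l ∈ Ico 1 (n + 1), algebraMap A S (δ (l + 2)) * z (l + 2)) *
        PP (fun l => z (l + 2)) 1 n +
      ∑ j ∈ Ico 1 n, algebraMap A S (g (j + 2)) *
        ((LF n (z 1) (z 2) (ys n z) (algebraMap A S (δ (2 * n + 3 - (j + 1))))
        (algebraMap A S (δ (2 * n + 3 - j)))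
        (fun l => algebraMap A S (X * δ (4 * n + 4 - j - l))) +
        ∑ l ∈ Ico 1 (n + 1), algebraMap A S (X * δ (2 * n + 3 + l - j)) * z (l + 2)) *
          QQ (fun l => z (l + 2)) n j))) = 0 := by
  set ξ := algebraMap A S X with hξ
  set e : ℕ → S := fun l => z (l + 2) with he
  have hee : ∀ i, e i * e i = 0 := fun i => hz _
  have hx : ∀ c, xs X z c * xs X z c = 0 := by
    intro c
    rw [xs]
    split_ifs
    · exact hz c
    · linear_combination ξ ^ 2 * hz c
  have h3 := tan1 A S (2 * n + 1) (2 * n + 1) (2 * n + 2) (qq n X g) δ hT (xs X z) hx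
    (range (2 * n + 1)) (Subset.refl _) (card_range _)
  have h4 := congrArg TrivSqZeroExt.snd (TanL.prod_dual (S := S) (range (2 * n + 1))
    (row (2 * n + 2) (qq n X g) (xs X z)) (row (2 * n + 2) δ (xs X z)))
  rw [h3] at h4
  simp only [inr_zero, add_zero, snd_inl] at h4
  rw [prod_rows n (by omega)] at h4
  -- the three parts
  set Li : ℕ → S := fun i => (VV (fun p => algebraMap A S (g p)) (z 1) (z 2) (i + 1) -
        VV (fun p => algebraMap A S (g p)) (z 1) (z 2) i + (ys n z i + ys n z (i + 1))) +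
      NN n ξ e (fun p => algebraMap A S (g p)) i with hLi
  set M0 : S := LF n (z 1) (z 2) (ys n z) (algebraMap A S v1) (algebraMap A S v2)
        (fun j => algebraMap A S (δ (2 * n + 3 - j))) +
        ∑ l ∈ Ico 1 (n + 1), algebraMap A S (δ (l + 2)) * z (l + 2) with hM0
  set Mj : ℕ → S := fun j =>
      LF n (z 1) (z 2) (ys n z) (algebraMap A S (δ (2 * n + 3 - (j + 1))))
        (algebraMap A S (δ (2 * n + 3 - j)))
        (fun l => algebraMap A S (X * δ (4 * n + 4 - j - l))) +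
        ∑ l ∈ Ico 1 (n + 1), algebraMap A S (X * δ (2 * n + 3 + l - j)) * z (l + 2) with hMj
  have p2 : ∏ i ∈ Ico 0 (n + 1), (inl (row (2 * n + 2) (qq n X g) (xs X z) (i + 1)) +
      inr (row (2 * n + 2) δ (xs X z) (i + 1)) : DualNumber S) =
      inl (ξ ^ (n + 1) * ∏ i ∈ Ico 0 (n + 1), Li i) +
      inr (∑ i ∈ Ico 0 (n + 1), row (2 * n + 2) δ (xs X z) (i + 1) *
        ∏ i' ∈ (Ico 0 (n + 1)).erase i, row (2 * n + 2) (qq n X g) (xs X z) (i' + 1)) := by
    rw [TanL.prod_dual (Ico 0 (n + 1)) (fun i => row (2 * n + 2) (qq n X g) (xs X z) (i + 1))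
      (fun i => row (2 * n + 2) δ (xs X z) (i + 1))]
    congr 2
    rw [prod_congr rfl (fun i hi => rowqi hg hn z hi), prod_mul_distrib, prod_const,
      Nat.card_Ico, Nat.sub_zero]
  have p3 : ∏ j ∈ Ico 1 n, (inl (row (2 * n + 2) (qq n X g) (xs X z) (2 * n + 1 - j)) +
      inr (row (2 * n + 2) δ (xs X z) (2 * n + 1 - j)) : DualNumber S) =
      inl (ξ ^ (n - 1) * PP e 1 n) + inr (ξ ^ (n - 2) * ∑ j ∈ Ico 1 n, Mj j *
        ∏ i ∈ (Ico 1 n).erase j, (e i + e (i + 1))) := by
    rw [prod_congr rfl (fun j hj => by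
      rw [rowqj hg hn z hj, rowdj z hj] :
      ∀ j ∈ Ico 1 n, (inl (row (2 * n + 2) (qq n X g) (xs X z) (2 * n + 1 - j)) +
      inr (row (2 * n + 2) δ (xs X z) (2 * n + 1 - j)) : DualNumber S) =
      inl (ξ * (e j + e (j + 1))) + inr (Mj j)),
      TanL.prod_dual (Ico 1 n) (fun j => ξ * (e j + e (j + 1))) Mj]
    congr 2
    · rw [prod_mul_distrib, prod_const, Nat.card_Ico]
      rfl
    · rw [mul_sum]
      apply sum_congr rfl
      intro j hj
      rw [prod_mul_distrib, prod_const, card_erase_of_mem hj, Nat.card_Ico]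
      have : n - 1 - 1 = n - 2 := by omega
      rw [this]
      ring
  have hE0 : ∑ l ∈ Ico 1 (n + 1),
      (algebraMap A S (g (l + 1 + 1)) - algebraMap A S (g (l + 1))) * z (l + 2) =
      ∑ i ∈ Ico 1 n, algebraMap A S (g (i + 1 + 1)) * (e i - e (i + 1)) := by
    have := abel (e := e) (fun i => algebraMap A S (g (i + 1))) (n := n) (by omega)
    rw [this, hg (n + 1 + 1) (by omega), hg (1 + 1) (by omega), map_zero]
    ring
  have r0 := rowq0 hg hn z (X := X)
  have d0 := rowd0 (n := n) z h1 h2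
  rw [hE0, ← hξ] at r0
  rw [← hξ, ← hM0] at d0
  rw [p2, p3, r0, d0, TanL.mul_dual, TanL.mul_dual] at h4
  simp only [snd_add, snd_inl, snd_inr, zero_add] at h4
  set E0 := ∑ i ∈ Ico 1 n, algebraMap A S (g (i + 1 + 1)) * (e i - e (i + 1)) with hE0'
  have h5 : E0 * PP e 1 n = 0 := E0P hee (fun i => algebraMap A S (g (i + 1))) n
  have h6 : E0 * ∑ j ∈ Ico 1 n, Mj j * ∏ i ∈ (Ico 1 n).erase j, (e i + e (i + 1)) =
      ∑ j ∈ Ico 1 n, algebraMap A S (g (j + 2)) * (Mj j * QQ e n j) := by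
    rw [mul_sum]
    apply sum_congr rfl
    intro j hj
    rw [mem_Ico] at hj
    have := E0Q hee (fun i => algebraMap A S (g (i + 1))) hj.1 hj.2
    linear_combination Mj j * this
  have h7 : (∑ j ∈ Ico 1 n, algebraMap A S (g (j + 2)) *
        ((LF n (z 1) (z 2) (ys n z) (algebraMap A S (δ (2 * n + 3 - (j + 1))))
        (algebraMap A S (δ (2 * n + 3 - j)))
        (fun l => algebraMap A S (X * δ (4 * n + 4 - j - l))) +
        ∑ l ∈ Ico 1 (n + 1), algebraMap A S (X * δ (2 * n + 3 + l - j)) * z (l + 2)) *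
          QQ e n j)) = ∑ j ∈ Ico 1 n, algebraMap A S (g (j + 2)) * (Mj j * QQ e n j) := rfl
  rw [h7]
  have h8 : (∏ i ∈ Ico 0 (n + 1), ((VV (fun p => algebraMap A S (g p)) (z 1) (z 2) (i + 1) -
        VV (fun p => algebraMap A S (g p)) (z 1) (z 2) i + (ys n z i + ys n z (i + 1))) +
      NN n ξ e (fun p => algebraMap A S (g p)) i)) = ∏ i ∈ Ico 0 (n + 1), Li i := rfl
  rw [h8]
  clear_value Li M0 Mj E0
  obtain ⟨k, rfl⟩ : ∃ k, n = k + 2 := ⟨n - 2, by omega⟩
  have e3 : k + 2 - 1 = k + 1 := by omega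
  have e4 : k + 2 - 2 = k := by omega
  rw [e3, e4] at h4
  linear_combination h4 - ξ ^ (2 * (k + 2) + 1) * (∏ i ∈ Ico 0 (k + 2 + 1), Li i) * h6 -
    ξ ^ (k + 1) * ξ ^ 2 * (∑ i ∈ Ico 0 (k + 2 + 1), row (2 * (k + 2) + 2) δ (xs X z) (i + 1) *
        ∏ i' ∈ (Ico 0 (k + 2 + 1)).erase i,
          row (2 * (k + 2) + 2) (qq (k + 2) X g) (xs X z) (i' + 1)) * h5

end

end Pool.Agent.Helper95K9.HO
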